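import Pool.Agent.N24.RW.Stm

/-!
# Random orbits of groups of integral matrices: closure properties of the pronull sets

Owner helper765.
-/

set_option autoImplicit false
set_option linter.unusedSectionVars false

namespace Pool.Agent.N24.RW

open Finset MvPolynomial

namespace Clo

/-- the preimage of a set under a surjective homomorphism of finite groups -/
theorem ncard_preimage {G H : Type*} [AddGroup G] [AddGroup H] [Finite G] [Finite H]
    (φ : G →+ H) (hφ : Function.Surjective φ) (T : Set H) :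
    (φ ⁻¹' T).ncard * Nat.card H = T.ncard * Nat.card G := by
  classical
  have := Fintype.ofFinite G
  have := Fintype.ofFinite H
  have key : ∀ y : H, #{g : G | φ g = y} = #{g : G | φ g = 0} := fun y =>
    AddMonoidHom.card_fiber_eq_of_mem_range φ (hφ y) (hφ 0)
  have h1 : ∀ S : Set H, (φ ⁻¹' S).ncard = S.ncard * #{g : G | φ g = 0} := by
    intro S
    rw [Set.ncard_eq_toFinset_card' (φ ⁻¹' S), Set.ncard_eq_toFinset_card' S]
    rw [Finset.card_eq_sum_card_fiberwise (f := φ) (t := S.toFinset) (fun x hx => by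
      simpa using hx)]
    rw [Finset.sum_const_nat (m := #{g : G | φ g = 0})]
    intro y hy
    rw [← key y]
    congr 1
    ext g
    simp only [Finset.mem_filter, Set.mem_toFinset, Set.mem_preimage, Finset.mem_univ, true_and]
    constructor
    · exact fun h => h.2
    · intro h
      exact ⟨by rw [h]; simpa using hy, h⟩
  have h2 : Nat.card G = Nat.card H * #{g : G | φ g = 0} := by
    have := h1 Set.univ
    rw [Set.preimage_univ, Set.ncard_univ, Set.ncard_univ] at this
    exact this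
  rw [h1 T, h2]
  ring

section
variable {ι : Type} [Fintype ι]

/-- the number of residue classes of a set -/
noncomputable def nc (q : ℕ) (B : Set (ι → ℤ)) : ℕ :=
  ((fun (c : ι → ℤ) (i : ι) => (c i : ZMod q)) '' B).ncard

theorem card_pi (q : ℕ) [NeZero q] : Nat.card (ι → ZMod q) = q ^ Fintype.card ι := by
  classical
  rw [Nat.card_eq_fintype_card, Fintype.card_fun, ZMod.card]

/-- reduction to a divisor of the modulus -/
def redu {q' q : ℕ} (h : q ∣ q') : (ι → ZMod q') →+ (ι → ZMod q) where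
  toFun := fun x i => ZMod.castHom h (ZMod q) (x i)
  map_zero' := by funext i; exact map_zero _
  map_add' := by intro x y; funext i; exact map_add _ _ _

theorem redu_surj {q' q : ℕ} (h : q ∣ q') : Function.Surjective (redu (ι := ι) h) := by
  intro y
  choose x hx using fun i => ZMod.ringHom_surjective (ZMod.castHom h (ZMod q)) (y i)
  exact ⟨x, funext hx⟩

theorem nc_dvd {q' q : ℕ} [NeZero q'] [NeZero q] (h : q ∣ q') (B : Set (ι → ℤ)) :
    nc q' B * q ^ Fintype.card ι ≤ nc q B * q' ^ Fintype.card ι := by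
  have h1 := ncard_preimage (redu (ι := ι) h) (redu_surj h)
    ((fun (c : ι → ℤ) (i : ι) => (c i : ZMod q)) '' B)
  rw [card_pi, card_pi] at h1
  unfold nc
  rw [← h1]
  refine Nat.mul_le_mul_right _ (Set.ncard_le_ncard ?_ (Set.toFinite _))
  rintro _ ⟨c, hc, rfl⟩
  refine ⟨c, hc, ?_⟩
  funext i
  show ((c i : ℤ) : ZMod q) = ZMod.castHom h (ZMod q) ((c i : ℤ) : ZMod q')
  rw [map_intCast]

/-- the bound for a modulus is inherited by its multiples -/
theorem bound_dvd {q' q : ℕ} (hq' : 0 < q') (hq : 0 < q) (h : q ∣ q') (B : Set (ι → ℤ)) (ε : ℝ)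
    (hb : (nc q B : ℝ) ≤ ε * (q : ℝ) ^ Fintype.card ι) :
    (nc q' B : ℝ) ≤ ε * (q' : ℝ) ^ Fintype.card ι := by
  have : NeZero q' := ⟨hq'.ne'⟩
  have : NeZero q := ⟨hq.ne'⟩
  have h1 : (nc q' B : ℝ) * (q : ℝ) ^ Fintype.card ι ≤ nc q B * (q' : ℝ) ^ Fintype.card ι := by
    exact_mod_cast nc_dvd h B
  have h2 : (0 : ℝ) < (q : ℝ) ^ Fintype.card ι := by positivity
  have h3 : (0 : ℝ) < (q' : ℝ) ^ Fintype.card ι := by positivity
  have h4 := mul_le_mul_of_nonneg_right hb h3.le
  have h5 : (nc q' B : ℝ) * (q : ℝ) ^ Fintype.card ι ≤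
      (ε * (q' : ℝ) ^ Fintype.card ι) * (q : ℝ) ^ Fintype.card ι := by nlinarith
  exact le_of_mul_le_mul_right h5 h2

theorem proNull_iff (B : Set (ι → ℤ)) : ProNull B ↔ ∀ M : ℕ, 0 < M → ∀ ε : ℝ, 0 < ε →
    ∃ q : ℕ, 0 < q ∧ q.Coprime M ∧ (nc q B : ℝ) ≤ ε * (q : ℝ) ^ Fintype.card ι := Iff.rfl

theorem mono {A B : Set (ι → ℤ)} (hAB : A ⊆ B) (hB : ProNull B) : ProNull A := by
  intro M hM ε hε
  obtain ⟨q, hq, hc, hb⟩ := hB M hM ε hε
  have : NeZero q := ⟨hq.ne'⟩
  refine ⟨q, hq, hc, le_trans ?_ hb⟩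
  have : ((fun (c : ι → ℤ) (i : ι) => (c i : ZMod q)) '' A).ncard ≤
      ((fun (c : ι → ℤ) (i : ι) => (c i : ZMod q)) '' B).ncard :=
    Set.ncard_le_ncard (Set.image_mono hAB) (Set.toFinite _)
  exact_mod_cast this

theorem union {A B : Set (ι → ℤ)} (hA : ProNull A) (hB : ProNull B) : ProNull (A ∪ B) := by
  rw [proNull_iff] at *
  intro M hM ε hε
  obtain ⟨q₁, hq₁, hc₁, hb₁⟩ := hA M hM (ε / 2) (by positivity)
  obtain ⟨q₂, hq₂, hc₂, hb₂⟩ := hB M hM (ε / 2) (by positivity)
  have hq : 0 < q₁ * q₂ := Nat.mul_pos hq₁ hq₂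
  have : NeZero (q₁ * q₂) := ⟨hq.ne'⟩
  refine ⟨q₁ * q₂, hq, Nat.Coprime.mul_left hc₁ hc₂, ?_⟩
  have h1 := bound_dvd hq hq₁ (Dvd.intro _ rfl) A _ hb₁
  have h2 := bound_dvd hq hq₂ (Dvd.intro_left _ rfl) B _ hb₂
  have h3 : nc (q₁ * q₂) (A ∪ B) ≤ nc (q₁ * q₂) A + nc (q₁ * q₂) B := by
    unfold nc
    rw [Set.image_union]
    exact Set.ncard_union_le _ _
  have h4 : (nc (q₁ * q₂) (A ∪ B) : ℝ) ≤ nc (q₁ * q₂) A + nc (q₁ * q₂) B := by exact_mod_cast h3
  linarith

theorem finite [Nonempty ι] {A : Set (ι → ℤ)} (hA : A.Finite) : ProNull A := by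
  rw [proNull_iff]
  intro M hM ε hε
  obtain ⟨p, hp, hpp⟩ := Nat.exists_infinite_primes (M + 1 + ⌈(A.ncard : ℝ) / ε⌉₊)
  have hpM : M < p := by omega
  have hcop : p.Coprime M := (Nat.Prime.coprime_iff_not_dvd hpp).2 fun h => by
    have := Nat.le_of_dvd hM h
    omega
  refine ⟨p, hpp.pos, hcop, ?_⟩
  have h1 : nc p A ≤ A.ncard := Set.ncard_image_le hA
  have h2 : (A.ncard : ℝ) / ε ≤ p := by
    refine (Nat.le_ceil _).trans ?_
    exact_mod_cast (by omega : ⌈(A.ncard : ℝ) / ε⌉₊ ≤ p)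
  rw [div_le_iff₀ hε] at h2
  have hp1 : (1 : ℝ) ≤ p := by exact_mod_cast hpp.one_lt.le
  have h3 : (p : ℝ) ≤ (p : ℝ) ^ Fintype.card ι :=
    le_self_pow₀ hp1 Fintype.card_ne_zero
  have h4 : (nc p A : ℝ) ≤ A.ncard := by exact_mod_cast h1
  nlinarith

/-- the degree of a polynomial does not grow under a map of the coefficients -/
theorem totalDegree_map_le' {I : Type} {R S : Type*} [CommSemiring R] [CommSemiring S]
    (f : R →+* S) (P : MvPolynomial I R) : (P.map f).totalDegree ≤ P.totalDegree := by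
  unfold totalDegree
  exact Finset.sup_mono (support_map_subset _ _)

open scoped NNRat in
/-- the number of zeros in a finite field -/
theorem sz_fin {p : ℕ} [hp : Fact p.Prime] {N : ℕ} (R' : MvPolynomial (Fin N) (ZMod p))
    (hR' : R' ≠ 0) :
    ((Finset.univ : Finset (Fin N → ZMod p)).filter (fun f => eval f R' = 0)).card * p ≤
      R'.totalDegree * p ^ N := by
  have hsz := schwartz_zippel_totalDegree hR' (Finset.univ : Finset (ZMod p))
  have hcardS : (Finset.univ : Finset (ZMod p)).card = p := by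
    rw [Finset.card_univ, ZMod.card]
  rw [hcardS, Fintype.piFinset_univ] at hsz
  have hppos : 0 < p := hp.out.pos
  have hpq : (0 : ℚ≥0) < p := by exact_mod_cast hppos
  rw [div_le_div_iff₀ (pow_pos hpq _) hpq] at hsz
  exact_mod_cast hsz

/-- the number of zeros of the reduction of an integral polynomial -/
theorem zeros (R : MvPolynomial ι ℤ) (p : ℕ) [hp : Fact p.Prime]
    (hR : R.map (Int.castRingHom (ZMod p)) ≠ 0) :
    {ρ : ι → ZMod p | eval ρ (R.map (Int.castRingHom (ZMod p))) = 0}.ncard * p ≤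
      R.totalDegree * p ^ Fintype.card ι := by
  classical
  have hR'0 : rename (Fintype.equivFin ι) (R.map (Int.castRingHom (ZMod p))) ≠ 0 := by
    intro h
    apply hR
    apply rename_injective (Fintype.equivFin ι) (Fintype.equivFin ι).injective
    rw [h, map_zero]
  have h := (sz_fin _ hR'0).trans (Nat.mul_le_mul_right (p ^ Fintype.card ι)
    ((totalDegree_rename_le _ _).trans (totalDegree_map_le' (Int.castRingHom (ZMod p)) R)))
  have h2 : {ρ : ι → ZMod p | eval ρ (R.map (Int.castRingHom (ZMod p))) = 0}.ncard ≤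
      ((Finset.univ : Finset (Fin (Fintype.card ι) → ZMod p)).filter (fun f =>
      eval f (rename (Fintype.equivFin ι) (R.map (Int.castRingHom (ZMod p)))) = 0)).card := by
    rw [← Set.ncard_coe_finset]
    refine Set.ncard_le_ncard_of_injOn (fun ρ => ρ ∘ (Fintype.equivFin ι).symm) ?_ ?_
      (Finset.finite_toSet _)
    · intro ρ hρ
      simp only [Finset.coe_filter, Finset.mem_univ, true_and, Set.mem_ofPred_eq]
      rw [MvPolynomial.eval_rename]
      have e : (ρ ∘ (Fintype.equivFin ι).symm) ∘ (Fintype.equivFin ι) = ρ := by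
        funext i
        simp
      rw [e]
      exact hρ
    · intro ρ _ ρ' _ h
      funext i
      have := congrFun h (Fintype.equivFin ι i)
      simpa using this
  exact (Nat.mul_le_mul_right p h2).trans h

theorem poly (R : MvPolynomial ι ℤ) (hR : R ≠ 0) :
    ProNull {c : ι → ℤ | MvPolynomial.eval c R = 0} := by
  classical
  rw [proNull_iff]
  intro M hM ε hε
  obtain ⟨m, hm⟩ := MvPolynomial.ne_zero_iff.1 hR
  obtain ⟨p, hp, hpp⟩ := Nat.exists_infinite_primes
    (M + 1 + (coeff m R).natAbs + 1 + ⌈(R.totalDegree : ℝ) / ε⌉₊)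
  have : Fact p.Prime := ⟨hpp⟩
  have : NeZero p := ⟨hpp.ne_zero⟩
  have hpM : M < p := by omega
  have hcop : p.Coprime M := (Nat.Prime.coprime_iff_not_dvd hpp).2 fun h => by
    have := Nat.le_of_dvd hM h
    omega
  have hne : R.map (Int.castRingHom (ZMod p)) ≠ 0 := by
    intro h
    have h1 := congrArg (coeff m) h
    rw [MvPolynomial.coeff_map, coeff_zero] at h1
    have h2 : (p : ℤ) ∣ coeff m R := (ZMod.intCast_zmod_eq_zero_iff_dvd _ _).1 h1
    have h3 := Nat.le_of_dvd (Int.natAbs_pos.2 hm) (Int.natCast_dvd.1 h2)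
    omega
  refine ⟨p, hpp.pos, hcop, ?_⟩
  have h1 : nc p {c : ι → ℤ | MvPolynomial.eval c R = 0} ≤
      {ρ : ι → ZMod p | eval ρ (R.map (Int.castRingHom (ZMod p))) = 0}.ncard := by
    refine Set.ncard_le_ncard ?_ (Set.toFinite _)
    rintro _ ⟨c, hc, rfl⟩
    have hc' : MvPolynomial.eval c R = 0 := hc
    show eval (fun i => ((c i : ℤ) : ZMod p)) (R.map (Int.castRingHom (ZMod p))) = 0
    have e : eval (fun i => ((c i : ℤ) : ZMod p)) (R.map (Int.castRingHom (ZMod p))) =
        ((eval c R : ℤ) : ZMod p) := by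
      rw [MvPolynomial.eval_map]
      exact (MvPolynomial.eval₂_comp (Int.castRingHom (ZMod p)) c R).symm
    rw [e, hc', Int.cast_zero]
  have h2 := (Nat.mul_le_mul_right p h1).trans (zeros R p hne)
  have h3 : (nc p {c : ι → ℤ | MvPolynomial.eval c R = 0} : ℝ) * p ≤
      R.totalDegree * (p : ℝ) ^ Fintype.card ι := by exact_mod_cast h2
  have h4 : (R.totalDegree : ℝ) / ε ≤ p := by
    refine (Nat.le_ceil _).trans ?_
    exact_mod_cast (by omega : ⌈(R.totalDegree : ℝ) / ε⌉₊ ≤ p)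
  rw [div_le_iff₀ hε] at h4
  have hp0 : (0 : ℝ) < p := by exact_mod_cast hpp.pos
  have h5 : (0 : ℝ) < (p : ℝ) ^ Fintype.card ι := by positivity
  have h6 := mul_le_mul_of_nonneg_right h4 h5.le
  have h7 : (nc p {c : ι → ℤ | MvPolynomial.eval c R = 0} : ℝ) * p ≤
      (ε * (p : ℝ) ^ Fintype.card ι) * p := by nlinarith
  exact le_of_mul_le_mul_right h7 hp0

/-- restriction of the coordinates -/
def restr {κ : Type} (q : ℕ) (f : ι → κ) : (κ → ZMod q) →+ (ι → ZMod q) where
  toFun := fun x i => x (f i)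
  map_zero' := by funext i; simp
  map_add' := by intro x y; funext i; simp

theorem restr_surj {κ : Type} (q : ℕ) {f : ι → κ} (hf : Function.Injective f) :
    Function.Surjective (restr q f) := by
  intro y
  classical
  refine ⟨Function.extend f y 0, ?_⟩
  funext i
  exact hf.extend_apply y 0 i

theorem pull {κ : Type} [Fintype κ] {f : ι → κ} (hf : Function.Injective f) {B : Set (ι → ℤ)}
    (hB : ProNull B) : ProNull {c : κ → ℤ | (fun i => c (f i)) ∈ B} := by
  rw [proNull_iff] at *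
  intro M hM ε hε
  obtain ⟨q, hq, hc, hb⟩ := hB M hM ε hε
  have : NeZero q := ⟨hq.ne'⟩
  refine ⟨q, hq, hc, ?_⟩
  have h1 := ncard_preimage (restr q f) (restr_surj q hf)
    ((fun (c : ι → ℤ) (i : ι) => (c i : ZMod q)) '' B)
  rw [card_pi, card_pi] at h1
  have h2 : nc q {c : κ → ℤ | (fun i => c (f i)) ∈ B} ≤
      ((restr q f) ⁻¹' ((fun (c : ι → ℤ) (i : ι) => (c i : ZMod q)) '' B)).ncard := by
    refine Set.ncard_le_ncard ?_ (Set.toFinite _)
    rintro _ ⟨c, hc, rfl⟩
    exact ⟨fun i => c (f i), hc, rfl⟩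
  have h3 := Nat.mul_le_mul_right (q ^ Fintype.card ι) h2
  rw [h1] at h3
  have h4 : (nc q {c : κ → ℤ | (fun i => c (f i)) ∈ B} : ℝ) * (q : ℝ) ^ Fintype.card ι ≤
      (nc q B : ℝ) * (q : ℝ) ^ Fintype.card κ := by exact_mod_cast h3
  have h5 : (0 : ℝ) < (q : ℝ) ^ Fintype.card ι := by positivity
  have h6 : (0 : ℝ) < (q : ℝ) ^ Fintype.card κ := by positivity
  have h7 := mul_le_mul_of_nonneg_right hb h6.le
  have h8 : (nc q {c : κ → ℤ | (fun i => c (f i)) ∈ B} : ℝ) * (q : ℝ) ^ Fintype.card ι ≤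
      (ε * (q : ℝ) ^ Fintype.card κ) * (q : ℝ) ^ Fintype.card ι := by nlinarith
  exact le_of_mul_le_mul_right h8 h5

end

end Clo

/-- **D.** closure properties of the pronull sets -/
theorem t_CLO : S_CLO := fun _ _ =>
  ⟨fun _ _ h hB => Clo.mono h hB, fun _ _ hA hB => Clo.union hA hB,
    fun hn A hA => by have := hn; exact Clo.finite hA, fun R hR => Clo.poly R hR,
    fun _ _ _ hf _ hB => Clo.pull hf hB⟩

end Pool.Agent.N24.RW
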