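import Pool.Agent.N24.RW.Stm

/-!
# Project RW, C: the local criterion (helper300)
-/

set_option autoImplicit false

namespace Pool.Agent.N24.RW

open MeasureTheory Filter Topology

/-- only finitely many of pairwise coprime numbers are not prime to `M` -/
theorem crit_fin {Q : ℕ → ℕ} (hQc : ∀ p p', p.Prime → p'.Prime → p ≠ p' → (Q p).Coprime (Q p'))
    {M : ℕ} (hM : 0 < M) : {p : ℕ | p.Prime ∧ ¬ (Q p).Coprime M}.Finite := by
  have h1 : ∀ p : ℕ, ∃ l : ℕ, ¬ (Q p).Coprime M → l.Prime ∧ l ∣ Q p ∧ l ∣ M := by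
    intro p
    by_cases h : (Q p).Coprime M
    · exact ⟨0, fun h2 => absurd h h2⟩
    · obtain ⟨l, hl⟩ := Nat.Prime.not_coprime_iff_dvd.1 h
      exact ⟨l, fun _ => hl⟩
  choose f hf using h1
  apply Set.Finite.of_finite_image (f := f)
  · refine Set.Finite.subset (Finset.finite_toSet M.divisors) ?_
    rintro _ ⟨p, ⟨-, hp2⟩, rfl⟩
    rw [Finset.mem_coe, Nat.mem_divisors]
    exact ⟨(hf p hp2).2.2, hM.ne'⟩
  · rintro p ⟨hp1, hp2⟩ p' ⟨hp1', hp2'⟩ h
    by_contra hne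
    have h3 := hf p hp2
    have h4 := hf p' hp2'
    change f p = f p' at h
    rw [← h] at h4
    exact Nat.Prime.not_coprime_iff_dvd.2 ⟨f p, h3.1, h3.2.1, h4.2.1⟩ (hQc p p' hp1 hp1' hne)

/-- the number of residue vectors -/
theorem crit_card {ι : Type} [Fintype ι] {n : ℕ} (hn : 1 ≤ n) (Ω : Set (ι → ZMod n)) :
    ((Ωᶜ.ncard : ℕ) : ℝ) = (n : ℝ) ^ Fintype.card ι - (Ω.ncard : ℝ) := by
  have : NeZero n := ⟨by omega⟩
  have h1 := Set.ncard_add_ncard_compl Ω
  have h2 : Nat.card (ι → ZMod n) = n ^ Fintype.card ι := by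
    rw [Nat.card_fun, Nat.card_zmod, Nat.card_eq_fintype_card]
  rw [h2] at h1
  have h3 : ((Ω.ncard + Ωᶜ.ncard : ℕ) : ℝ) = ((n ^ Fintype.card ι : ℕ) : ℝ) := by rw [h1]
  push_cast at h3
  linarith

/-- the number of the residue vectors which are outside of all sets -/
theorem crit_count {ι : Type} [Fintype ι] {Q : ℕ → ℕ} (P : Finset ℕ) (hQ1 : ∀ p ∈ P, 1 ≤ Q p)
    (hQc : ∀ p ∈ P, ∀ p' ∈ P, p ≠ p' → (Q p).Coprime (Q p')) (Ω : ∀ p : ℕ, Set (ι → ZMod (Q p)))
    (B : Set (ι → ℤ)) (hB : ∀ c ∈ B, ∀ p ∈ P, (fun i => (c i : ZMod (Q p))) ∉ Ω p) :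
    ((fun (c : ι → ℤ) (i : ι) => (c i : ZMod (∏ p ∈ P, Q p))) '' B).ncard ≤
      ∏ p ∈ P, (Ω p)ᶜ.ncard := by
  have hne : ∀ p : P, NeZero (Q p) := fun p => ⟨by have := hQ1 p p.2; omega⟩
  have hfin : ∀ p : P, Finite (ι → ZMod (Q p)) := fun p => inferInstance
  set g : (ι → ℤ) → ∀ p : P, ι → ZMod (Q p) := fun c p i => (c i : ZMod (Q p)) with hg
  set f : (ι → ℤ) → ι → ZMod (∏ p ∈ P, Q p) := fun c i => (c i : ZMod (∏ p ∈ P, Q p)) with hf
  have hfg : Function.FactorsThrough f g := by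
    intro c c' h
    funext i
    rw [hf]
    simp only
    rw [← sub_eq_zero, ← Int.cast_sub, ZMod.intCast_zmod_eq_zero_iff_dvd]
    rw [Nat.cast_prod]
    apply Finset.prod_dvd_of_coprime
    · intro p hp p' hp' hne
      exact Nat.isCoprime_iff_coprime.2 (hQc p hp p' hp' hne)
    · intro p hp
      have h1 := congrFun (congrFun h ⟨p, hp⟩) i
      rw [hg] at h1
      simp only at h1
      rw [← ZMod.intCast_zmod_eq_zero_iff_dvd, Int.cast_sub, sub_eq_zero]
      exact h1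
  obtain ⟨h, hh⟩ : ∃ h : (∀ p : P, ι → ZMod (Q p)) → ι → ZMod (∏ p ∈ P, Q p), f = h ∘ g :=
    (Function.factorsThrough_iff f).1 hfg
  have h1 : f '' B = h '' (g '' B) := by rw [hh, Set.image_comp]
  rw [h1]
  have h2 : g '' B ⊆ Set.pi Set.univ fun p : P => (Ω p)ᶜ := by
    rintro _ ⟨c, hc, rfl⟩ p -
    exact hB c hc p p.2
  refine (Set.ncard_image_le (Set.toFinite _)).trans ((Set.ncard_le_ncard h2 (Set.toFinite _)).trans
    (le_of_eq ?_))
  rw [← Finset.prod_attach P fun p => (Ω p)ᶜ.ncard]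
  rw [← Nat.card_coe_set_eq, Nat.card_congr (Equiv.Set.univPi fun p : P => (Ω p)ᶜ), Nat.card_pi]
  rfl

/-- **C.** the local criterion -/
theorem t_CRIT : S_CRIT := by
  intro ι _ Q hQ1 hQc Ω T₀ w hw0 hdiv hΩ M hM ε hε
  classical
  set good : ℕ → Prop := fun p => p.Prime ∧ T₀ < p ∧ (Q p).Coprime M with hgood
  have hns : ¬ Summable (fun p : ℕ => if good p then w p else 0) := by
    intro hsum
    apply hdiv
    refine (summable_congr_cofinite ?_).mp hsum
    rw [Filter.eventuallyEq_iff_exists_mem]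
    refine ⟨(Set.Iic T₀ ∪ {p : ℕ | p.Prime ∧ ¬ (Q p).Coprime M})ᶜ, ?_, ?_⟩
    · rw [mem_cofinite, compl_compl]
      exact (Set.finite_Iic T₀).union (crit_fin hQc hM)
    · intro p hp
      simp only [Set.mem_compl_iff, Set.mem_union, Set.mem_Iic, Set.mem_setOf_eq, not_or, not_le,
        not_and, not_not] at hp
      by_cases hpp : p.Prime
      · simp [hgood, hpp, hp.1, hp.2 hpp]
      · simp [hgood, hpp]
  have hnn : ∀ p : ℕ, 0 ≤ (if good p then w p else 0) := by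
    intro p
    have := hw0 p
    split_ifs
    · exact this
    · exact le_rfl
  have ht := (not_summable_iff_tendsto_nat_atTop_of_nonneg hnn).mp hns
  obtain ⟨y, hy⟩ := (ht.eventually_ge_atTop (-Real.log ε)).exists
  set P : Finset ℕ := (Finset.range y).filter good with hP
  have hPsum : -Real.log ε ≤ ∑ p ∈ P, w p := by
    rw [hP, Finset.sum_filter]
    exact hy
  have hPm : ∀ p ∈ P, p.Prime ∧ T₀ < p ∧ (Q p).Coprime M := fun p hp => (Finset.mem_filter.1 hp).2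
  refine ⟨∏ p ∈ P, Q p, Finset.prod_pos fun p hp => hQ1 p (hPm p hp).1,
    Nat.Coprime.prod_left fun p hp => (hPm p hp).2.2, ?_⟩
  have h1 := crit_count P (fun p hp => hQ1 p (hPm p hp).1)
    (fun p hp p' hp' hne => hQc p p' (hPm p hp).1 (hPm p' hp').1 hne) Ω
    {c : ι → ℤ | ∀ p, p.Prime → T₀ < p → (fun i => (c i : ZMod (Q p))) ∉ Ω p}
    (fun c hc p hp => hc p (hPm p hp).1 (hPm p hp).2.1)
  refine (Nat.cast_le.2 h1).trans ?_
  rw [Nat.cast_prod]
  have h2 : ∀ p ∈ P, (((Ω p)ᶜ.ncard : ℕ) : ℝ) ≤ (Q p : ℝ) ^ Fintype.card ι * Real.exp (-w p) := by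
    intro p hp
    rw [crit_card (hQ1 p (hPm p hp).1)]
    have h3 := hΩ p (hPm p hp).1 (hPm p hp).2.1
    have h4 := Real.add_one_le_exp (-w p)
    have h5 : (0 : ℝ) ≤ (Q p : ℝ) ^ Fintype.card ι := by positivity
    nlinarith [mul_le_mul_of_nonneg_left h4 h5]
  refine (Finset.prod_le_prod (fun p _ => Nat.cast_nonneg _) h2).trans ?_
  rw [Finset.prod_mul_distrib, Finset.prod_pow, ← Real.exp_sum, Finset.sum_neg_distrib,
    Nat.cast_prod, mul_comm ε]
  refine mul_le_mul_of_nonneg_left ?_ (by positivity)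
  rw [← Real.exp_log hε, Real.exp_le_exp]
  linarith

end Pool.Agent.N24.RW
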