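import Pool.Agent.N24.RW.Stm

/-!
# Project RW (helper24), part ERG (helper195): the strong law for random walks on finite groups

The Poisson equation `u - P u = g`, the martingale `∑ (u (x_{n+1}) - P u (x_n))`, its second moment,
Borel-Cantelli along the squares.
-/

set_option autoImplicit false

namespace Pool.Agent.N24.RW

open MeasureTheory Filter Topology

namespace Erg

/-! ### the Poisson equation -/

section alg

variable {H X : Type} [Group H] [MulAction H X] {m : ℕ}

/-- the averaging operator -/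
noncomputable def avg (s : Fin (m + 1) → H) (u : X → ℝ) (x : X) : ℝ :=
  (∑ j, u (s j • x)) / (m + 1)

lemma const_of_avg [Finite H] [Finite X] [MulAction.IsPretransitive H X] (s : Fin (m + 1) → H)
    (hs : Subgroup.closure (Set.range s) = ⊤) (u : X → ℝ) (hu : ∀ x, avg s u x = u x) (x y : X) :
    u x = u y := by
  have : Nonempty X := ⟨x⟩
  obtain ⟨z, hz⟩ := Finite.exists_max u
  have key : ∀ j, ∀ y, u y = u z → u (s j • y) = u z := by
    intro j y hy
    by_contra hne
    have hlt : u (s j • y) < u z := lt_of_le_of_ne (hz _) hne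
    have h1 : ∑ i, u (s i • y) < ∑ _i : Fin (m + 1), u z :=
      Finset.sum_lt_sum (fun i _ => hz _) ⟨j, Finset.mem_univ j, hlt⟩
    have h2 := hu y
    unfold avg at h2
    rw [div_eq_iff (by positivity), hy] at h2
    rw [h2] at h1
    simp only [Finset.sum_const, Finset.card_univ, Fintype.card_fin, nsmul_eq_mul] at h1
    push_cast at h1
    linarith
  have hall : ∀ h : H, ∀ y, u y = u z → u (h • y) = u z := by
    intro h
    have hh : h ∈ Subgroup.closure (Set.range s) := by rw [hs]; trivial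
    induction hh using Subgroup.closure_induction with
    | mem h hh =>
      obtain ⟨j, rfl⟩ := hh
      exact key j
    | one =>
      intro y hy
      rwa [one_smul]
    | mul a b _ _ ha hb =>
      intro y hy
      rw [mul_smul]
      exact ha _ (hb _ hy)
    | inv a _ ha =>
      have hpow : ∀ n : ℕ, ∀ y, u y = u z → u (a ^ n • y) = u z := by
        intro n
        induction n with
        | zero =>
          intro y hy
          rwa [pow_zero, one_smul]
        | succ n ih =>
          intro y hy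
          rw [pow_succ', mul_smul]
          exact ha _ (ih _ hy)
      have hinv : a⁻¹ = a ^ (orderOf a - 1) := by
        apply inv_eq_of_mul_eq_one_right
        rw [← pow_succ', Nat.sub_add_cancel (orderOf_pos a), pow_orderOf_eq_one]
      rw [hinv]
      exact hpow _
  have hmax : ∀ y, u y = u z := by
    intro y
    obtain ⟨h, rfl⟩ := MulAction.exists_smul_eq H z y
    exact hall h z rfl
  rw [hmax x, hmax y]

lemma poisson [Finite H] [Fintype X] [MulAction.IsPretransitive H X] (s : Fin (m + 1) → H)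
    (hs : Subgroup.closure (Set.range s) = ⊤) (g : X → ℝ) (hg : ∑ x, g x = 0) :
    ∃ u : X → ℝ, ∀ x, u x - avg s u x = g x := by
  classical
  let L : (X → ℝ) →ₗ[ℝ] (X → ℝ) :=
    { toFun := fun u x => u x - avg s u x
      map_add' := by
        intro u v
        funext x
        simp only [avg, Pi.add_apply, Finset.sum_add_distrib]
        ring
      map_smul' := by
        intro c u
        funext x
        simp only [avg, Pi.smul_apply, smul_eq_mul, ← Finset.mul_sum, RingHom.id_apply]
        ring }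
  let Z : Submodule ℝ (X → ℝ) :=
    { carrier := {u | ∑ x, u x = 0}
      add_mem' := by
        intro u v hu hv
        simp only [Set.mem_ofPred_eq, Pi.add_apply, Finset.sum_add_distrib] at *
        rw [hu, hv, add_zero]
      zero_mem' := by simp
      smul_mem' := by
        intro c u hu
        simp only [Set.mem_ofPred_eq, Pi.smul_apply, smul_eq_mul, ← Finset.mul_sum] at *
        rw [hu, mul_zero] }
  have hLZ : ∀ u ∈ Z, L u ∈ Z := by
    intro u _
    show ∑ x, (u x - avg s u x) = 0
    have h1 : ∑ x, avg s u x = ∑ x, u x := by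
      simp only [avg]
      rw [← Finset.sum_div, Finset.sum_comm]
      have h2 : ∀ j : Fin (m + 1), ∑ x, u (s j • x) = ∑ x, u x := fun j =>
        Equiv.sum_comp (MulAction.toPerm (s j)) u
      rw [Finset.sum_congr rfl fun j _ => h2 j, Finset.sum_const, Finset.card_univ,
        Fintype.card_fin, nsmul_eq_mul]
      push_cast
      field_simp
    rw [Finset.sum_sub_distrib, h1, sub_self]
  have hinj : Function.Injective (L.restrict hLZ) := by
    rw [injective_iff_map_eq_zero]
    rintro ⟨u, hu⟩ h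
    have h1 : L u = 0 := congrArg Subtype.val h
    have h2 : ∀ x, avg s u x = u x := by
      intro x
      have h3 : u x - avg s u x = 0 := congrFun h1 x
      linarith
    have h3 := const_of_avg s hs u h2
    apply Subtype.ext
    funext x
    show u x = 0
    have h4 : ∑ y, u y = 0 := hu
    rw [Finset.sum_congr rfl fun y _ => h3 y x, Finset.sum_const, Finset.card_univ,
      nsmul_eq_mul] at h4
    have h5 : (Fintype.card X : ℝ) ≠ 0 := by
      have : Nonempty X := ⟨x⟩
      exact_mod_cast Fintype.card_ne_zero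
    exact (mul_eq_zero.mp h4).resolve_left h5
  have hsurj := LinearMap.injective_iff_surjective.mp hinj
  obtain ⟨⟨u, _⟩, hu⟩ := hsurj ⟨g, hg⟩
  refine ⟨u, fun x => ?_⟩
  exact congrFun (congrArg Subtype.val hu) x

end alg

/-! ### functions of finitely many letters -/

section prob

variable {m : ℕ}

/-- `F` depends only on the first `N` letters -/
def Dep {β : Type} (N : ℕ) (F : (ℕ → Fin (m + 1)) → β) : Prop :=
  ∀ w w', (∀ i, i < N → w i = w' i) → F w = F w'

instance : IsProbabilityMeasure (words m) := by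
  unfold words
  infer_instance

/-- the first letters -/
def pr (N : ℕ) (w : ℕ → Fin (m + 1)) : Fin N → Fin (m + 1) := fun i => w i

/-- extension of a word -/
def ex (N : ℕ) (g : Fin N → Fin (m + 1)) : ℕ → Fin (m + 1) :=
  fun i => if h : i < N then g ⟨i, h⟩ else 0

lemma Dep.eq {β : Type} {N : ℕ} {F : (ℕ → Fin (m + 1)) → β} (h : Dep N F) (w) :
    F w = F (ex N (pr N w)) := by
  apply h
  intro i hi
  simp [ex, pr, hi]

lemma Dep.measurable {β : Type} [MeasurableSpace β] {N : ℕ} {F : (ℕ → Fin (m + 1)) → β}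
    (h : Dep N F) : Measurable F := by
  have hF : F = (fun g => F (ex N g)) ∘ pr N := by
    funext w
    exact h.eq w
  have hp : Measurable (pr N : (ℕ → Fin (m + 1)) → (Fin N → Fin (m + 1))) :=
    measurable_pi_lambda _ fun i => measurable_pi_apply _
  rw [hF]
  exact (measurable_of_countable _).comp hp

lemma Dep.bdd {N : ℕ} {F : (ℕ → Fin (m + 1)) → ℝ} (h : Dep N F) : ∃ C : ℝ, ∀ w, |F w| ≤ C := by
  obtain ⟨C, hC⟩ := (Set.finite_range fun g : Fin N → Fin (m + 1) => |F (ex N g)|).bddAbove
  refine ⟨C, fun w => ?_⟩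
  rw [h.eq w]
  exact hC ⟨pr N w, rfl⟩

lemma Dep.integrable {N : ℕ} {F : (ℕ → Fin (m + 1)) → ℝ} (h : Dep N F) :
    Integrable F (words m) := by
  obtain ⟨C, hC⟩ := h.bdd
  exact Integrable.of_bound h.measurable.aestronglyMeasurable C
    (Filter.Eventually.of_forall fun w => by rw [Real.norm_eq_abs]; exact hC w)

lemma Dep.mono {β : Type} {N N' : ℕ} (hN : N ≤ N') {F : (ℕ → Fin (m + 1)) → β} (h : Dep N F) :
    Dep N' F := fun w w' hw => h w w' fun i hi => hw i (lt_of_lt_of_le hi hN)

/-! ### changing one letter -/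

/-- adding `a` to the letter `N` -/
def tr (N : ℕ) (a : Fin (m + 1)) (w : ℕ → Fin (m + 1)) : ℕ → Fin (m + 1) :=
  fun i => if i = N then w i + a else w i

lemma unif_map (a : Fin (m + 1)) :
    (PMF.uniformOfFintype (Fin (m + 1))).toMeasure.map (fun x => x + a) =
      (PMF.uniformOfFintype (Fin (m + 1))).toMeasure := by
  apply Measure.ext_of_singleton
  intro x
  rw [Measure.map_apply (measurable_of_countable _) (measurableSet_singleton x)]
  have h : (fun x => x + a) ⁻¹' {x} = {x - a} := by
    ext y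
    simp only [Set.mem_preimage, Set.mem_singleton_iff]
    exact eq_sub_iff_add_eq.symm
  rw [h, PMF.toMeasure_apply_singleton _ _ (measurableSet_singleton _),
    PMF.toMeasure_apply_singleton _ _ (measurableSet_singleton _),
    PMF.uniformOfFintype_apply, PMF.uniformOfFintype_apply]

lemma tr_measurable (N : ℕ) (a : Fin (m + 1)) : Measurable (tr N a) := by
  refine measurable_pi_lambda _ fun i => ?_
  unfold tr
  by_cases h : i = N
  · simp only [h, if_true]
    exact (measurable_of_countable fun x : Fin (m + 1) => x + a).comp (measurable_pi_apply N)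
  · simp only [h, if_false]
    exact measurable_pi_apply i

lemma tr_map (N : ℕ) (a : Fin (m + 1)) : (words m).map (tr N a) = words m := by
  unfold words
  have h := Measure.infinitePi_map_pi
    (μ := fun _ : ℕ => (PMF.uniformOfFintype (Fin (m + 1))).toMeasure)
    (f := fun i x => if i = N then x + a else x) (fun i => measurable_of_countable _)
  have h2 : (fun i : ℕ => (PMF.uniformOfFintype (Fin (m + 1))).toMeasure.map
      (fun x => if i = N then x + a else x)) =
      fun _ : ℕ => (PMF.uniformOfFintype (Fin (m + 1))).toMeasure := by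
    funext i
    by_cases hi : i = N
    · simp only [hi, if_true]
      exact unif_map a
    · simp only [hi, if_false]
      exact Measure.map_id'
  have h3 : (fun (x : ℕ → Fin (m + 1)) i => if i = N then x i + a else x i) = tr N a := rfl
  rw [← h3]
  refine h.trans ?_
  congr 1

lemma integral_tr (N : ℕ) (a : Fin (m + 1)) {K : ℕ} {F : (ℕ → Fin (m + 1)) → ℝ} (h : Dep K F) :
    ∫ w, F (tr N a w) ∂(words m) = ∫ w, F w ∂(words m) := by
  conv_rhs => rw [← tr_map N a]
  rw [integral_map (tr_measurable N a).aemeasurable h.measurable.aestronglyMeasurable]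

/-- **orthogonality** -/
lemma orth {X : Type} (N : ℕ) (F : (ℕ → Fin (m + 1)) → ℝ) (Y : (ℕ → Fin (m + 1)) → X)
    (d : X → Fin (m + 1) → ℝ) (hF : Dep N F) (hY : Dep N Y) (hd : ∀ x, ∑ j, d x j = 0) :
    ∫ w, F w * d (Y w) (w N) ∂(words m) = 0 := by
  have hG : Dep (N + 1) fun w : ℕ → Fin (m + 1) => F w * d (Y w) (w N) := by
    intro w w' h
    have h1 := hF w w' fun i hi => h i (by omega)
    have h2 := hY w w' fun i hi => h i (by omega)
    simp only
    rw [h1, h2, h N (by omega)]
  have hGa : ∀ a : Fin (m + 1), Dep (N + 1) fun w : ℕ → Fin (m + 1) => F w * d (Y w) (w N + a) := by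
    intro a w w' h
    have h1 := hF w w' fun i hi => h i (by omega)
    have h2 := hY w w' fun i hi => h i (by omega)
    simp only
    rw [h1, h2, h N (by omega)]
  have h1 : ∀ a : Fin (m + 1), ∫ w, F w * d (Y w) (w N + a) ∂(words m) =
      ∫ w, F w * d (Y w) (w N) ∂(words m) := by
    intro a
    rw [← integral_tr N a hG]
    congr 1
    funext w
    have h2 : F (tr N a w) = F w := hF _ _ fun i hi => by simp [tr, hi.ne]
    have h3 : Y (tr N a w) = Y w := hY _ _ fun i hi => by simp [tr, hi.ne]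
    rw [h2, h3]
    simp [tr]
  have h2 : ∑ a : Fin (m + 1), ∫ w, F w * d (Y w) (w N + a) ∂(words m) = 0 := by
    rw [← integral_finsetSum _ fun a _ => (hGa a).integrable]
    have h3 : ∀ w : ℕ → Fin (m + 1), ∑ a, F w * d (Y w) (w N + a) = 0 := by
      intro w
      have h4 : ∑ a, d (Y w) (w N + a) = ∑ j, d (Y w) j :=
        Equiv.sum_comp (Equiv.addLeft (w N)) (d (Y w))
      rw [← Finset.mul_sum, h4, hd, mul_zero]
    simp only [h3, integral_zero]
  rw [Finset.sum_congr rfl fun a _ => h1 a, Finset.sum_const, Finset.card_univ, Fintype.card_fin,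
    nsmul_eq_mul] at h2
  have h3 : ((m + 1 : ℕ) : ℝ) ≠ 0 := by positivity
  exact (mul_eq_zero.mp h2).resolve_left h3

/-- the martingale -/
def Mt {X : Type} (Y : ℕ → (ℕ → Fin (m + 1)) → X) (d : X → Fin (m + 1) → ℝ) (N : ℕ)
    (w : ℕ → Fin (m + 1)) : ℝ := ∑ n ∈ Finset.range N, d (Y n w) (w n)

lemma Mt_dep {X : Type} {Y : ℕ → (ℕ → Fin (m + 1)) → X} (hY : ∀ n, Dep n (Y n))
    (d : X → Fin (m + 1) → ℝ) (N : ℕ) : Dep N (Mt Y d N) := by
  intro w w' h
  refine Finset.sum_congr rfl fun n hn => ?_
  have hn' := Finset.mem_range.1 hn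
  rw [hY n w w' fun i hi => h i (by omega), h n hn']

lemma Mt_sq {X : Type} {Y : ℕ → (ℕ → Fin (m + 1)) → X} (hY : ∀ n, Dep n (Y n))
    (d : X → Fin (m + 1) → ℝ) (hd : ∀ x, ∑ j, d x j = 0) {B : ℝ} (hB : ∀ x j, |d x j| ≤ B) (N : ℕ) :
    ∫ w, Mt Y d N w ^ 2 ∂(words m) ≤ N * B ^ 2 := by
  induction N with
  | zero => simp [Mt]
  | succ N ih =>
    have h1 : ∀ w : ℕ → Fin (m + 1), Mt Y d (N + 1) w ^ 2 = Mt Y d N w ^ 2 +
        (2 * Mt Y d N w) * d (Y N w) (w N) + d (Y N w) (w N) ^ 2 := by
      intro w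
      unfold Mt
      rw [Finset.sum_range_succ]
      ring
    have hM := Mt_dep hY d N
    have d1 : Dep (N + 1) fun w => Mt Y d N w ^ 2 := fun w w' h => by
      simp only
      rw [hM w w' fun i hi => h i (by omega)]
    have d2 : Dep (N + 1) fun w => (2 * Mt Y d N w) * d (Y N w) (w N) := fun w w' h => by
      simp only
      rw [hM w w' fun i hi => h i (by omega), hY N w w' fun i hi => h i (by omega),
        h N (by omega)]
    have d3 : Dep (N + 1) fun w : ℕ → Fin (m + 1) => d (Y N w) (w N) ^ 2 := fun w w' h => by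
      simp only
      rw [hY N w w' fun i hi => h i (by omega), h N (by omega)]
    have d4 : Dep N fun w => 2 * Mt Y d N w := fun w w' h => by
      simp only
      rw [hM w w' h]
    have d12 : Dep (N + 1) fun w => Mt Y d N w ^ 2 + (2 * Mt Y d N w) * d (Y N w) (w N) :=
      fun w w' h => by
        simp only
        rw [hM w w' fun i hi => h i (by omega), hY N w w' fun i hi => h i (by omega),
          h N (by omega)]
    simp only [h1]
    rw [integral_add d12.integrable d3.integrable,
      integral_add d1.integrable d2.integrable, orth N _ (Y N) d d4 (hY N) hd, add_zero]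
    have h3 : ∫ w, d (Y N w) (w N) ^ 2 ∂(words m) ≤ B ^ 2 := by
      have h4 : ∫ w, d (Y N w) (w N) ^ 2 ∂(words m) ≤ ∫ _w, B ^ 2 ∂(words m) := by
        refine integral_mono d3.integrable (integrable_const _) fun w => ?_
        exact sq_le_sq' (by have := (abs_le.1 (hB (Y N w) (w N))).1; linarith)
          (abs_le.1 (hB (Y N w) (w N))).2
      simpa using h4
    push_cast
    linarith

/-- **convergence** -/
lemma conv (M : ℕ → (ℕ → Fin (m + 1)) → ℝ) (hdep : ∀ N, Dep N (M N)) {B : ℝ} (hB : 0 ≤ B)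
    (h2 : ∀ N, ∫ w, M N w ^ 2 ∂(words m) ≤ N * B ^ 2)
    (hstep : ∀ N w, |M (N + 1) w - M N w| ≤ B) :
    ∀ᵐ w ∂(words m), Tendsto (fun N : ℕ => M N w / N) atTop (𝓝 0) := by
  set f : ℕ → (ℕ → Fin (m + 1)) → ENNReal := fun k w =>
    ENNReal.ofReal ((M (k ^ 2) w / (k : ℝ) ^ 2) ^ 2) with hf
  have hdepf : ∀ k, Dep (k ^ 2) fun w => (M (k ^ 2) w / (k : ℝ) ^ 2) ^ 2 := fun k w w' h => by
    simp only
    rw [hdep (k ^ 2) w w' h]
  have hfm : ∀ k, Measurable (f k) := fun k => (hdepf k).measurable.ennreal_ofReal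
  have hint : ∀ k, ∫⁻ w, f k w ∂(words m) ≤ ENNReal.ofReal (B ^ 2 * (1 / (k : ℝ) ^ 2)) := by
    intro k
    rw [← ofReal_integral_eq_lintegral_ofReal (hdepf k).integrable
      (Filter.Eventually.of_forall fun w => sq_nonneg _)]
    apply ENNReal.ofReal_le_ofReal
    have h3 : ∀ w : ℕ → Fin (m + 1), (M (k ^ 2) w / (k : ℝ) ^ 2) ^ 2 =
        (1 / (k : ℝ) ^ 4) * M (k ^ 2) w ^ 2 := by
      intro w
      rw [div_pow, ← pow_mul]
      ring
    simp only [h3]
    rw [integral_const_mul]
    have h4 := h2 (k ^ 2)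
    push_cast at h4
    have h5 : (0 : ℝ) ≤ 1 / (k : ℝ) ^ 4 := by positivity
    refine (mul_le_mul_of_nonneg_left h4 h5).trans (le_of_eq ?_)
    by_cases hk : (k : ℝ) = 0
    · rw [hk]
      norm_num
    · field_simp
  have hsum : ∑' k : ℕ, ENNReal.ofReal (B ^ 2 * (1 / (k : ℝ) ^ 2)) ≠ ⊤ := by
    have hs : Summable fun k : ℕ => B ^ 2 * (1 / (k : ℝ) ^ 2) :=
      (Real.summable_one_div_nat_pow.mpr one_lt_two).mul_left _
    rw [← ENNReal.ofReal_tsum_of_nonneg (fun k => by positivity) hs]
    exact ENNReal.ofReal_ne_top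
  have htot : ∫⁻ w, ∑' k, f k w ∂(words m) ≠ ⊤ := by
    rw [lintegral_tsum fun k => (hfm k).aemeasurable]
    exact ne_top_of_le_ne_top hsum (ENNReal.tsum_le_tsum hint)
  have hae := ae_lt_top (Measurable.ennreal_tsum hfm) htot
  filter_upwards [hae] with w hw
  have h3 := ENNReal.tendsto_atTop_zero_of_tsum_ne_top hw.ne
  have h4 : Tendsto (fun k : ℕ => (M (k ^ 2) w / (k : ℝ) ^ 2) ^ 2) atTop (𝓝 0) := by
    have h5 := (ENNReal.tendsto_toReal ENNReal.zero_ne_top).comp h3
    rw [ENNReal.toReal_zero] at h5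
    refine h5.congr fun k => ?_
    simp only [Function.comp_apply, hf]
    exact ENNReal.toReal_ofReal (sq_nonneg _)
  have h5 : Tendsto (fun k : ℕ => |M (k ^ 2) w / (k : ℝ) ^ 2|) atTop (𝓝 0) := by
    have h6 := (Real.continuous_sqrt.tendsto 0).comp h4
    rw [Real.sqrt_zero] at h6
    refine h6.congr fun k => ?_
    simp only [Function.comp_apply]
    exact Real.sqrt_sq_eq_abs _
  -- interpolation
  have hsq : Tendsto Nat.sqrt atTop atTop :=
    tendsto_atTop.2 fun b => eventually_atTop.2 ⟨b * b, fun N hN => Nat.le_sqrt.2 hN⟩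
  have h6 : Tendsto (fun k : ℕ => |M (k ^ 2) w / (k : ℝ) ^ 2| + 2 * B / k) atTop (𝓝 0) := by
    have h7 := tendsto_const_div_atTop_nhds_zero_nat (2 * B)
    simpa using h5.add h7
  have h7 := h6.comp hsq
  have hdist : ∀ a j : ℕ, |M (a + j) w - M a w| ≤ B * j := by
    intro a j
    induction j with
    | zero => simp
    | succ j ih =>
      have h8 := hstep (a + j) w
      have h9 : M (a + (j + 1)) w - M a w =
          (M (a + j + 1) w - M (a + j) w) + (M (a + j) w - M a w) := by
        rw [← add_assoc]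
        ring
      rw [h9]
      refine (abs_add_le _ _).trans ?_
      push_cast
      linarith
  refine squeeze_zero_norm' ?_ h7
  filter_upwards [eventually_ge_atTop 1] with N hN
  simp only [Function.comp_apply]
  set k := Nat.sqrt N with hk
  have hk1 : 1 ≤ k := Nat.le_sqrt.2 (by simpa using hN)
  have hkN : k ^ 2 ≤ N := by rw [sq]; exact Nat.sqrt_le N
  have hNk : N ≤ k * k + k + k := Nat.sqrt_le_add N
  obtain ⟨j, hj⟩ := Nat.exists_eq_add_of_le hkN
  have hj2 : j ≤ 2 * k := by
    have : k ^ 2 = k * k := sq k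
    omega
  have hN0 : (0 : ℝ) < N := by exact_mod_cast hN
  have hk0 : (0 : ℝ) < k := by exact_mod_cast hk1
  have hkN' : (k : ℝ) ^ 2 ≤ N := by exact_mod_cast hkN
  have h8 : |M N w| ≤ |M (k ^ 2) w| + 2 * B * k := by
    have h9 := hdist (k ^ 2) j
    rw [← hj] at h9
    have h10 : |M N w| ≤ |M (k ^ 2) w| + |M N w - M (k ^ 2) w| := by
      have := abs_add_le (M (k ^ 2) w) (M N w - M (k ^ 2) w)
      rwa [add_sub_cancel] at this
    have h11 : (j : ℝ) ≤ 2 * k := by exact_mod_cast hj2
    have h12 : B * j ≤ B * (2 * k) := mul_le_mul_of_nonneg_left h11 hB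
    linarith
  rw [Real.norm_eq_abs, abs_div, abs_of_pos hN0]
  have h9 : |M (k ^ 2) w / (k : ℝ) ^ 2| + 2 * B / k =
      (|M (k ^ 2) w| + 2 * B * k) / (k : ℝ) ^ 2 := by
    rw [abs_div, abs_of_pos (by positivity : (0 : ℝ) < (k : ℝ) ^ 2)]
    field_simp
  rw [h9]
  have h10 : 0 ≤ |M (k ^ 2) w| + 2 * B * k := by positivity
  calc |M N w| / N ≤ (|M (k ^ 2) w| + 2 * B * k) / N := div_le_div_of_nonneg_right h8 hN0.le
    _ ≤ (|M (k ^ 2) w| + 2 * B * k) / (k : ℝ) ^ 2 :=
        div_le_div_of_nonneg_left h10 (by positivity) hkN'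

end prob

/-- the walk -/
def wk {H X : Type} [Group H] [MulAction H X] {m : ℕ} (s : Fin (m + 1) → H) (x₀ : X) :
    ℕ → (ℕ → Fin (m + 1)) → X
  | 0, _ => x₀
  | n + 1, w => s (w n) • wk s x₀ n w

lemma wk_dep {H X : Type} [Group H] [MulAction H X] {m : ℕ} (s : Fin (m + 1) → H) (x₀ : X)
    (n : ℕ) : Dep n (wk s x₀ n) := by
  induction n with
  | zero => intro w w' _; rfl
  | succ n ih =>
    intro w w' h
    show s (w n) • wk s x₀ n w = s (w' n) • wk s x₀ n w'
    rw [ih w w' fun i hi => h i (by omega), h n (by omega)]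

end Erg

open Erg in
/-- **(ERG)** -/
theorem t_ERG : S_ERG := by
  classical
  intro H X _ _ _ _ _ m s hs x₀ R
  have : Fintype X := Fintype.ofFinite X
  have hX : Nonempty X := ⟨x₀⟩
  have hc0 : (0 : ℝ) < Fintype.card X := by exact_mod_cast Fintype.card_pos
  set ρ : ℝ := (R.ncard : ℝ) / (Nat.card X : ℝ) with hρ
  set g : X → ℝ := fun x => (if x ∈ R then 1 else 0) - ρ with hg
  have hg0 : ∑ x, g x = 0 := by
    simp only [hg]
    rw [Finset.sum_sub_distrib, Finset.sum_ite, Finset.sum_const_zero, add_zero, Finset.sum_const,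
      Finset.sum_const, Finset.card_univ, nsmul_eq_mul, nsmul_eq_mul, mul_one, hρ,
      Nat.card_eq_fintype_card, Set.ncard_eq_toFinset_card']
    have h1 : (Finset.univ.filter fun x => x ∈ R) = R.toFinset := by
      ext x
      simp
    rw [h1]
    field_simp
    ring
  obtain ⟨u, hu⟩ := poisson s hs g hg0
  set d : X → Fin (m + 1) → ℝ := fun x j => u (s j • x) - avg s u x with hd
  have hd0 : ∀ x, ∑ j, d x j = 0 := by
    intro x
    simp only [hd]
    rw [Finset.sum_sub_distrib, Finset.sum_const, Finset.card_univ, Fintype.card_fin,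
      nsmul_eq_mul]
    unfold avg
    push_cast
    field_simp
    ring
  obtain ⟨B, hB⟩ : ∃ B : ℝ, ∀ x j, |d x j| ≤ B := by
    obtain ⟨C, hC⟩ := (Set.finite_range fun p : X × Fin (m + 1) => |d p.1 p.2|).bddAbove
    exact ⟨C, fun x j => hC ⟨(x, j), rfl⟩⟩
  obtain ⟨C, hC⟩ : ∃ C : ℝ, ∀ x, |u x| ≤ C := by
    obtain ⟨C, hC⟩ := (Set.finite_range fun x : X => |u x|).bddAbove
    exact ⟨C, fun x => hC ⟨x, rfl⟩⟩
  have hB0 : 0 ≤ B := (abs_nonneg _).trans (hB x₀ 0)
  have hconv := conv (Mt (wk s x₀) d) (Mt_dep (wk_dep s x₀) d) hB0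
    (Mt_sq (wk_dep s x₀) d hd0 hB) (fun N w => by
      unfold Mt
      rw [Finset.sum_range_succ, add_sub_cancel_left]
      exact hB _ _)
  filter_upwards [hconv] with w hw
  intro x hx0 hx
  have hxw : ∀ n, x n = wk s x₀ n w := by
    intro n
    induction n with
    | zero => exact hx0
    | succ n ih =>
      rw [hx n, ih]
      rfl
  -- telescoping
  have htel : ∀ N : ℕ, ∑ n ∈ Finset.range N, g (x n) = u (x 0) - u (x N) + Mt (wk s x₀) d N w := by
    intro N
    induction N with
    | zero => simp [Mt]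
    | succ N ih =>
      rw [Finset.sum_range_succ, ih]
      unfold Mt
      rw [Finset.sum_range_succ, ← hu (x N), ← hxw N]
      simp only [hd]
      rw [← hx N]
      ring
  have hcnt : ∀ N : ℕ, (({n : ℕ | n < N ∧ x n ∈ R}.ncard : ℕ) : ℝ) =
      ∑ n ∈ Finset.range N, g (x n) + N * ρ := by
    intro N
    have h1 : {n : ℕ | n < N ∧ x n ∈ R} = ↑((Finset.range N).filter fun n => x n ∈ R) := by
      ext n
      simp
    rw [h1, Set.ncard_coe_finset, Finset.card_filter]
    simp only [hg]
    rw [Finset.sum_sub_distrib, Finset.sum_const, Finset.card_range, nsmul_eq_mul]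
    push_cast
    ring
  have hlim : Tendsto (fun N : ℕ => (u (x 0) - u (x N)) / N + Mt (wk s x₀) d N w / N + ρ) atTop
      (𝓝 (0 + 0 + ρ)) := by
    refine Tendsto.add_const _ (Tendsto.add ?_ hw)
    have h1 := tendsto_const_div_atTop_nhds_zero_nat (2 * C)
    refine squeeze_zero_norm (fun N => ?_) h1
    rw [Real.norm_eq_abs, abs_div, Nat.abs_cast]
    apply div_le_div_of_nonneg_right _ (Nat.cast_nonneg N)
    have h2 := hC (x 0)
    have h3 := hC (x N)
    have h4 := abs_sub (u (x 0)) (u (x N))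
    linarith
  rw [zero_add, zero_add] at hlim
  refine hlim.congr' ?_
  filter_upwards [eventually_ge_atTop 1] with N hN
  have hN0 : (N : ℝ) ≠ 0 := by
    have : (0 : ℝ) < N := by exact_mod_cast hN
    exact this.ne'
  rw [hcnt, htel]
  field_simp

end Pool.Agent.N24.RW
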