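import Pool.Agent.N24.RW.Stm

set_option autoImplicit false

/-! Orbits of `SL_r (ℤ/q)` on the primitive vectors (helper543). -/

namespace Pool.Agent.N24.RW

namespace Orb

open Finset

section move

variable {ι : Type} [Fintype ι] [DecidableEq ι] {R : Type} [CommRing R]

/-- two vectors are in one orbit -/
def Rel (u w : ι → R) : Prop := ∃ h : Matrix.SpecialLinearGroup ι R, h.1.mulVec u = w

lemma Rel.refl (u : ι → R) : Rel u u := ⟨1, by simp⟩

lemma Rel.trans {u v w : ι → R} (h1 : Rel u v) (h2 : Rel v w) : Rel u w := by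
  obtain ⟨g, rfl⟩ := h1
  obtain ⟨h, rfl⟩ := h2
  refine ⟨h * g, ?_⟩
  rw [Matrix.mulVec_mulVec]
  rfl

lemma Rel.symm {u v : ι → R} (h1 : Rel u v) : Rel v u := by
  obtain ⟨g, rfl⟩ := h1
  refine ⟨g⁻¹, ?_⟩
  rw [Matrix.mulVec_mulVec]
  have : (g⁻¹).1 * g.1 = 1 := by
    have := congrArg Subtype.val (inv_mul_cancel g)
    exact this
  rw [this, Matrix.one_mulVec]

lemma Rel.move (u : ι → R) {i j : ι} (hij : i ≠ j) (c : R) :
    Rel u (Function.update u i (u i + c * u j)) := by
  refine ⟨⟨Matrix.transvection i j c, Matrix.det_transvection_of_ne i j hij c⟩, ?_⟩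
  show (Matrix.transvection i j c).mulVec u = _
  unfold Matrix.transvection
  rw [Matrix.add_mulVec, Matrix.one_mulVec]
  funext k
  rw [Pi.add_apply, Matrix.mulVec, dotProduct]
  by_cases hk : k = i
  · subst hk
    rw [Function.update_self]
    congr 1
    rw [Finset.sum_eq_single j]
    · simp
    · intro b _ hb
      simp [hb.symm]
    · intro h; exact absurd (mem_univ j) h
  · rw [Function.update_of_ne hk]
    have : ∑ b, (Matrix.single i j c : Matrix ι ι R) k b * u b = 0 := by
      refine Finset.sum_eq_zero fun b _ => ?_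
      simp [Ne.symm hk]
    rw [this, add_zero]

/-- a vector with a unit coordinate can be changed at all other places -/
lemma Rel.free (k : ι) {u w : ι → R} (hu : IsUnit (u k)) (hw : w k = u k) : Rel u w := by
  obtain ⟨a, ha⟩ := hu
  have key : ∀ S : Finset ι, k ∉ S → Rel u (S.piecewise w u) := by
    intro S
    induction S using Finset.induction_on with
    | empty =>
      intro _
      rw [Finset.piecewise_empty]
      exact Rel.refl u
    | insert j S hj ih =>
      intro hk
      rw [mem_insert, not_or] at hk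
      have h1 := ih hk.2
      have h2 := Rel.move (S.piecewise w u) (Ne.symm hk.1) ((w j - u j) * ((a⁻¹ : Rˣ) : R))
      have e1 : S.piecewise w u k = u k := Finset.piecewise_eq_of_notMem _ _ _ hk.2
      have e2 : S.piecewise w u j = u j := Finset.piecewise_eq_of_notMem _ _ _ hj
      have e3 : Function.update (S.piecewise w u) j
          (S.piecewise w u j + (w j - u j) * ((a⁻¹ : Rˣ) : R) * S.piecewise w u k) =
          (insert j S).piecewise w u := by
        rw [e1, e2, ← ha, mul_assoc, Units.inv_mul, mul_one, add_sub_cancel]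
        rw [Finset.piecewise_insert]
      rw [e3] at h2
      exact h1.trans h2
  have h1 := key (univ.erase k) (notMem_erase k univ)
  have e : (univ.erase k).piecewise w u = w := by
    funext i
    by_cases hi : i = k
    · subst hi
      rw [Finset.piecewise_eq_of_notMem _ _ _ (notMem_erase i univ), hw]
    · rw [Finset.piecewise_eq_of_mem _ _ _ (mem_erase.mpr ⟨hi, mem_univ i⟩)]
  rw [e] at h1
  exact h1

end move

section zmod

variable {q : ℕ}

/-- reduction modulo a divisor -/
noncomputable def φ {p : ℕ} (h : p ∣ q) : ZMod q →+* ZMod p := ZMod.castHom h (ZMod p)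

lemma φ_nat {p : ℕ} (h : p ∣ q) (n : ℕ) : φ h (n : ZMod q) = (n : ZMod p) := map_natCast _ _

/-- the step of stable range one -/
lemma stable (hq : 0 < q) (a b : ZMod q) : ∃ t : ZMod q, ∀ (p : ℕ) (_ : p.Prime) (h : p ∣ q),
    φ h (a + t * b) = 0 → φ h a = 0 ∧ φ h b = 0 := by
  classical
  have : NeZero q := ⟨hq.ne'⟩
  obtain ⟨x, rfl⟩ : ∃ x : ℕ, a = x := ⟨a.val, (ZMod.natCast_zmod_val a).symm⟩
  obtain ⟨y, rfl⟩ : ∃ y : ℕ, b = y := ⟨b.val, (ZMod.natCast_zmod_val b).symm⟩
  set T : ℕ := ∏ p ∈ q.primeFactors.filter (fun p => ¬ p ∣ x), p with hT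
  refine ⟨(T : ZMod q), fun p hp h h0 => ?_⟩
  have h1 : φ h (((x + T * y : ℕ) : ℕ) : ZMod q) = 0 := by push_cast; exact h0
  rw [φ_nat, ZMod.natCast_eq_zero_iff] at h1
  rw [φ_nat, φ_nat, ZMod.natCast_eq_zero_iff, ZMod.natCast_eq_zero_iff]
  by_cases hx : p ∣ x
  · refine ⟨hx, ?_⟩
    have h2 : p ∣ T * y := (Nat.dvd_add_right hx).mp h1
    rcases (Nat.Prime.dvd_mul hp).mp h2 with h3 | h3
    · exfalso
      rw [hT, hp.prime.dvd_finsetProd_iff] at h3
      obtain ⟨r, hr, hpr⟩ := h3
      rw [mem_filter, Nat.mem_primeFactors] at hr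
      have : p = r := (Nat.prime_dvd_prime_iff_eq hp hr.1.1).mp hpr
      exact hr.2 (this ▸ hx)
    · exact h3
  · exfalso
    have h2 : p ∣ T := by
      rw [hT]
      exact dvd_prod_of_mem _ (mem_filter.mpr ⟨Nat.mem_primeFactors.mpr ⟨hp, h, hq.ne'⟩, hx⟩)
    exact hx ((Nat.dvd_add_left (h2.mul_right y)).mp h1)

lemma unit_of (hq : 0 < q) (a : ZMod q) (h : ∀ (p : ℕ) (_ : p.Prime) (hd : p ∣ q), φ hd a ≠ 0) :
    IsUnit a := by
  have : NeZero q := ⟨hq.ne'⟩
  obtain ⟨x, rfl⟩ : ∃ x : ℕ, a = x := ⟨a.val, (ZMod.natCast_zmod_val a).symm⟩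
  rw [ZMod.isUnit_iff_coprime]
  refine Nat.Coprime.symm (Nat.coprime_of_dvd fun p hp hpq hpx => ?_)
  have := h p hp hpq
  rw [φ_nat, Ne, ZMod.natCast_eq_zero_iff] at this
  exact this hpx

variable {ι : Type} [Fintype ι] [DecidableEq ι]

/-- primitive vectors -/
def Um (u : ι → ZMod q) : Prop := ∀ (p : ℕ) (_ : p.Prime) (h : p ∣ q), ∃ i, φ h (u i) ≠ 0

omit [DecidableEq ι] in
lemma um_of_span {u : ι → ZMod q} (h : Ideal.span (Set.range u) = ⊤) : Um u := by
  intro p hp hd
  by_contra hcon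
  push Not at hcon
  have : Fact p.Prime := ⟨hp⟩
  have h1 : Ideal.span (Set.range u) ≤ RingHom.ker (φ hd) := by
    rw [Ideal.span_le]
    rintro _ ⟨i, rfl⟩
    exact hcon i
  rw [h, top_le_iff] at h1
  exact RingHom.ker_ne_top (φ hd) h1

lemma exists_unit (hq : 0 < q) {v : ι → ZMod q} (hv : Um v) (i0 : ι) :
    ∃ a : ZMod q, IsUnit a ∧ Rel v (Function.update v i0 a) := by
  have key : ∀ S : Finset ι, i0 ∉ S → ∃ a : ZMod q, Rel v (Function.update v i0 a) ∧
      ∀ (p : ℕ) (_ : p.Prime) (h : p ∣ q), φ h a = 0 → ∃ j, j ∉ S ∧ j ≠ i0 ∧ φ h (v j) ≠ 0 := by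
    intro S
    induction S using Finset.induction_on with
    | empty =>
      intro _
      refine ⟨v i0, by rw [Function.update_eq_self]; exact Rel.refl v, fun p hp h h0 => ?_⟩
      obtain ⟨i, hi⟩ := hv p hp h
      refine ⟨i, notMem_empty i, ?_, hi⟩
      rintro rfl
      exact hi h0
    | insert j S hj ih =>
      intro hk
      rw [mem_insert, not_or] at hk
      obtain ⟨a, ha, hp⟩ := ih hk.2
      obtain ⟨t, ht⟩ := stable hq a (v j)
      refine ⟨a + t * v j, ?_, ?_⟩
      · have h1 := Rel.move (Function.update v i0 a) hk.1 t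
        rw [Function.update_self, Function.update_of_ne (Ne.symm hk.1), Function.update_idem] at h1
        exact ha.trans h1
      · intro p hpp h h0
        obtain ⟨h1, h2⟩ := ht p hpp h h0
        obtain ⟨j', h3, h4, h5⟩ := hp p hpp h h1
        refine ⟨j', ?_, h4, h5⟩
        rw [mem_insert, not_or]
        refine ⟨?_, h3⟩
        rintro rfl
        exact h5 h2
  obtain ⟨a, ha, hp⟩ := key (univ.erase i0) (notMem_erase i0 univ)
  refine ⟨a, unit_of hq a fun p hpp h h0 => ?_, ha⟩
  obtain ⟨j, h1, h2, -⟩ := hp p hpp h h0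
  exact h1 (mem_erase.mpr ⟨h2, mem_univ j⟩)

lemma to_e (hq : 0 < q) {v : ι → ZMod q} (hv : Um v) {i0 j0 : ι} (hij : i0 ≠ j0) :
    Rel v (fun i => if i = i0 then 1 else 0) := by
  obtain ⟨a, ha, h1⟩ := exists_unit hq hv i0
  have h2 : Rel (Function.update v i0 a) (fun i => if i = i0 then a else if i = j0 then 1 else 0) :=
    Rel.free i0 (by rw [Function.update_self]; exact ha) (by rw [Function.update_self, if_pos rfl])
  have h3 : Rel (fun i => if i = i0 then a else if i = j0 then (1 : ZMod q) else 0)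
      (fun i => if i = i0 then 1 else if i = j0 then 1 else 0) :=
    Rel.free j0 (by rw [if_neg hij.symm, if_pos rfl]; exact isUnit_one)
      (by rw [if_neg hij.symm, if_neg hij.symm])
  have h4 : Rel (fun i => if i = i0 then (1 : ZMod q) else if i = j0 then 1 else 0)
      (fun i => if i = i0 then 1 else 0) :=
    Rel.free i0 (by rw [if_pos rfl]; exact isUnit_one) (by rw [if_pos rfl, if_pos rfl])
  exact ((h1.trans h2).trans h3).trans h4

/-- the number of the vectors which vanish modulo `p` -/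
lemma card_zero [NeZero q] {p : ℕ} (hp : p.Prime) (h : p ∣ q) :
    (((univ.filter fun x : ZMod q => φ h x = 0).card : ℕ) : ℝ) = (q : ℝ) / p := by
  classical
  have : NeZero p := ⟨hp.ne_zero⟩
  have h1 : Nat.card (φ h).toAddMonoidHom.ker * (φ h).toAddMonoidHom.ker.index = Nat.card (ZMod q) :=
    AddSubgroup.card_mul_index _
  have h2 : (φ h).toAddMonoidHom.ker.index = p := by
    rw [AddSubgroup.index_ker]
    have h3 : (φ h).toAddMonoidHom.range = ⊤ := by
      rw [AddMonoidHom.range_eq_top]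
      exact ZMod.castHom_surjective h
    rw [h3]
    simp
  rw [h2, Nat.card_zmod] at h1
  have h4 : Nat.card (φ h).toAddMonoidHom.ker = (univ.filter fun x : ZMod q => φ h x = 0).card := by
    rw [← Fintype.card_subtype, ← Nat.card_eq_fintype_card]
    rfl
  rw [h4] at h1
  have hp0 : (0 : ℝ) < p := by exact_mod_cast hp.pos
  rw [eq_div_iff hp0.ne']
  exact_mod_cast h1

lemma card_pi [NeZero q] {p : ℕ} (hp : p.Prime) (h : p ∣ q)
    (hι : 2 ≤ Fintype.card ι) :
    (((univ.filter fun u : ι → ZMod q => ∀ i, φ h (u i) = 0).card : ℕ) : ℝ) ≤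
      (q : ℝ) ^ Fintype.card ι * (1 / (p : ℝ) ^ 2) := by
  classical
  have e : (univ.filter fun u : ι → ZMod q => ∀ i, φ h (u i) = 0) =
      Fintype.piFinset fun _ : ι => univ.filter fun x : ZMod q => φ h x = 0 := by
    ext u
    simp [Fintype.mem_piFinset]
  rw [e, Fintype.card_piFinset, Finset.prod_const, Nat.cast_pow, card_zero hp h, div_pow,
    mul_one_div, Finset.card_univ]
  have hp1 : (1 : ℝ) ≤ p := by exact_mod_cast hp.one_le
  have hp0 : (0 : ℝ) < p := by linarith
  exact div_le_div_of_nonneg_left (by positivity) (by positivity) (pow_le_pow_right₀ hp1 hι)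

lemma sum_sq (N : ℕ) (hN : 3 ≤ N) :
    ∑ n ∈ Ico 3 N, (1 : ℝ) / (n : ℝ) ^ 2 ≤ 1 / 2 - 1 / ((N : ℝ) - 1) := by
  induction N, hN using Nat.le_induction with
  | base => norm_num
  | succ n hn ih =>
    rw [sum_Ico_succ_top hn]
    have h3 : (3 : ℝ) ≤ n := by exact_mod_cast hn
    have h1 : (1 : ℝ) / (n : ℝ) ^ 2 ≤ 1 / ((n : ℝ) - 1) - 1 / (n : ℝ) := by
      rw [div_sub_div _ _ (by linarith) (by linarith), div_le_div_iff₀ (by positivity)
        (mul_pos (by linarith) (by linarith))]
      nlinarith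
    push_cast
    rw [add_sub_cancel_right]
    linarith

lemma sum_primes (hq : 0 < q) (ho : Odd q) :
    ∑ p ∈ q.primeFactors, (1 : ℝ) / (p : ℝ) ^ 2 ≤ 1 / 2 := by
  by_cases h3 : q < 3
  · have : q = 1 := by
      obtain ⟨k, hk⟩ := ho
      omega
    subst this
    simp
  · push Not at h3
    have hsub : q.primeFactors ⊆ Ico 3 (q + 1) := by
      intro p hp
      rw [Nat.mem_primeFactors] at hp
      rw [mem_Ico]
      refine ⟨?_, Nat.lt_succ_of_le (Nat.le_of_dvd hq hp.2.1)⟩
      have h2 := hp.1.two_le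
      have : p ≠ 2 := by
        rintro rfl
        have := hp.2.1
        obtain ⟨k, hk⟩ := ho
        omega
      omega
    refine (sum_le_sum_of_subset_of_nonneg hsub fun i _ _ => by positivity).trans ?_
    refine (sum_sq (q + 1) (by omega)).trans ?_
    have : (0 : ℝ) ≤ 1 / (((q + 1 : ℕ) : ℝ) - 1) := by
      push_cast
      rw [add_sub_cancel_right]
      positivity
    linarith

lemma card_um (hq : 0 < q) [NeZero q] (ho : Odd q) (hι : 2 ≤ Fintype.card ι) :
    (q : ℝ) ^ Fintype.card ι ≤ 2 * ((({u : ι → ZMod q | Um u} : Set (ι → ZMod q)).ncard : ℕ) : ℝ) := by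
  classical
  set B : Finset (ι → ZMod q) := univ.filter fun u => ¬ Um u with hB
  have h1 : {u : ι → ZMod q | Um u}.ncard + B.card = q ^ Fintype.card ι := by
    have e1 : {u : ι → ZMod q | Um u} = ((univ.filter fun u : ι → ZMod q => Um u : Finset _) : Set _) := by
      ext u; simp
    rw [e1, Set.ncard_coe_finset, hB, Finset.card_filter_add_card_filter_not]
    rw [card_univ, Fintype.card_fun, ZMod.card]
  have h2 : (B.card : ℝ) ≤ ∑ p ∈ q.primeFactors, (q : ℝ) ^ Fintype.card ι * (1 / (p : ℝ) ^ 2) := by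
    have hsub : B ⊆ q.primeFactors.attach.biUnion fun p =>
        univ.filter fun u : ι → ZMod q => ∀ i, φ (Nat.dvd_of_mem_primeFactors p.2) (u i) = 0 := by
      intro u hu
      rw [hB, mem_filter] at hu
      have hu2 := hu.2
      unfold Um at hu2
      push Not at hu2
      obtain ⟨p, hp, hd, hi⟩ := hu2
      rw [mem_biUnion]
      refine ⟨⟨p, Nat.mem_primeFactors.mpr ⟨hp, hd, hq.ne'⟩⟩, mem_attach _ _, ?_⟩
      rw [mem_filter]
      exact ⟨mem_univ _, hi⟩
    have h3 := (card_le_card hsub).trans card_biUnion_le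
    have h4 : (B.card : ℝ) ≤ ∑ p ∈ q.primeFactors.attach,
        (((univ.filter fun u : ι → ZMod q =>
          ∀ i, φ (Nat.dvd_of_mem_primeFactors p.2) (u i) = 0).card : ℕ) : ℝ) := by
      exact_mod_cast h3
    refine h4.trans ?_
    rw [← sum_attach q.primeFactors (fun p => (q : ℝ) ^ Fintype.card ι * (1 / (p : ℝ) ^ 2))]
    exact sum_le_sum fun p _ => card_pi (Nat.prime_of_mem_primeFactors p.2) _ hι
  rw [← mul_sum] at h2
  have h5 := sum_primes hq ho
  have h6 : (q : ℝ) ^ Fintype.card ι * ∑ p ∈ q.primeFactors, (1 : ℝ) / (p : ℝ) ^ 2 ≤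
      (q : ℝ) ^ Fintype.card ι * (1 / 2) := mul_le_mul_of_nonneg_left h5 (by positivity)
  have h7 : ({u : ι → ZMod q | Um u}.ncard : ℝ) + (B.card : ℝ) = (q : ℝ) ^ Fintype.card ι := by
    exact_mod_cast h1
  linarith

end zmod

end Orb

theorem t_ORB : S_ORB := by
  intro ι _ _ hι q hq ho v hv
  classical
  have : NeZero q := ⟨hq.ne'⟩
  obtain ⟨i0, j0, hij⟩ := Fintype.exists_pair_of_one_lt_card (α := ι) (by omega)
  refine (Orb.card_um hq ho hι).trans ?_
  have hsub : {u : ι → ZMod q | Orb.Um u} ⊆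
      Set.range fun h : Matrix.SpecialLinearGroup ι (ZMod q) => h.1.mulVec v := by
    intro u hu
    have h1 := Orb.to_e hq (Orb.um_of_span hv) hij
    have h2 := Orb.to_e hq hu hij
    obtain ⟨h, hh⟩ := h1.trans h2.symm
    exact ⟨h, hh⟩
  have h3 := Set.ncard_le_ncard hsub (Set.toFinite _)
  have h4 : (({u : ι → ZMod q | Orb.Um u}.ncard : ℕ) : ℝ) ≤
      ((Set.range fun h : Matrix.SpecialLinearGroup ι (ZMod q) => h.1.mulVec v).ncard : ℝ) := by
    exact_mod_cast h3
  linarith

end Pool.Agent.N24.RW
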