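import Pool.Agent.N24.RW.Stm

/-!
# Random orbits of groups of integral matrices: part E (`S_ONE`)

Outside a pronull set every coordinate has a prime `p > D` which divides it exactly once and divides no
other coordinate. The count of the residue classes is taken from `Pool/Agent/N666/TM/Exact.lean`.
-/

set_option autoImplicit false
set_option linter.unusedSectionVars false

namespace Pool.Agent.N24.RW

open Filter

section

variable {ι : Type} [Fintype ι] [DecidableEq ι]

/-- the residue classes -/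
def one_Om (l : ι) (p : ℕ) : Set (ι → ZMod (p ^ 2)) :=
  {ρ | p ∣ (ρ l).val ∧ (ρ l).val ≠ 0 ∧ ∀ i, i ≠ l → ¬ p ∣ (ρ i).val}

theorem one_dvd (p : ℕ) (hp : 1 ≤ p) (a : ℤ) : p ∣ ((a : ZMod (p ^ 2))).val ↔ (p : ℤ) ∣ a := by
  have : NeZero (p ^ 2) := ⟨by positivity⟩
  have h1 : ((((a : ZMod (p ^ 2))).val : ℕ) : ℤ) = a % ((p ^ 2 : ℕ) : ℤ) := ZMod.val_intCast a
  rw [← Int.natCast_dvd_natCast, h1]
  have h2 : a = a % ((p ^ 2 : ℕ) : ℤ) + p * (p * (a / ((p ^ 2 : ℕ) : ℤ))) := by
    have := Int.emod_add_mul_ediv a ((p ^ 2 : ℕ) : ℤ)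
    push_cast at this ⊢
    nlinarith
  constructor
  · intro h
    rw [h2]
    exact dvd_add h (Dvd.intro _ rfl)
  · intro h
    rw [h2] at h
    exact (Int.dvd_add_left (Dvd.intro _ rfl)).mp h

theorem one_val_ne (p : ℕ) (hp : 1 ≤ p) (a : ℤ) :
    ((a : ZMod (p ^ 2))).val ≠ 0 ↔ ¬ (p : ℤ) ^ 2 ∣ a := by
  have : NeZero (p ^ 2) := ⟨by positivity⟩
  rw [Ne, ZMod.val_eq_zero, ZMod.intCast_zmod_eq_zero_iff_dvd]
  push_cast
  rfl

theorem one_mem (l : ι) (p : ℕ) (hp : 1 ≤ p) (c : ι → ℤ) :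
    (fun i => (c i : ZMod (p ^ 2))) ∈ one_Om l p ↔
      (p : ℤ) ∣ c l ∧ ¬ ((p : ℤ) ^ 2 ∣ c l) ∧ ∀ j, j ≠ l → ¬ (p : ℤ) ∣ c j := by
  unfold one_Om
  simp only [Set.mem_ofPred_eq]
  rw [one_dvd p hp, one_val_ne p hp]
  simp only [one_dvd p hp]

theorem one_card_mult (p : ℕ) (hp : 1 ≤ p) [NeZero (p ^ 2)] :
    (Finset.univ.filter fun a : ZMod (p ^ 2) => p ∣ a.val).card = p := by
  have h : (Finset.univ.filter fun a : ZMod (p ^ 2) => p ∣ a.val) =
      (Finset.range p).image (fun k : ℕ => ((p * k : ℕ) : ZMod (p ^ 2))) := by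
    ext a
    simp only [Finset.mem_filter, Finset.mem_univ, true_and, Finset.mem_image, Finset.mem_range]
    constructor
    · rintro ⟨k, hk⟩
      refine ⟨k, ?_, ?_⟩
      · have := ZMod.val_lt a
        rw [hk, pow_two] at this
        exact Nat.lt_of_mul_lt_mul_left this
      · rw [← hk, ZMod.natCast_zmod_val]
    · rintro ⟨k, hk, rfl⟩
      rw [ZMod.val_natCast_of_lt]
      · exact Dvd.intro _ rfl
      · rw [pow_two]
        exact Nat.mul_lt_mul_of_pos_left hk hp
  rw [h, Finset.card_image_of_injOn, Finset.card_range]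
  intro k hk k' hk' hkk
  simp only [Finset.coe_range, Set.mem_Iio] at hk hk'
  have h1 : p * k < p ^ 2 := by rw [pow_two]; exact Nat.mul_lt_mul_of_pos_left hk hp
  have h2 : p * k' < p ^ 2 := by rw [pow_two]; exact Nat.mul_lt_mul_of_pos_left hk' hp
  have h3 := congrArg ZMod.val hkk
  simp only at h3
  rw [ZMod.val_natCast_of_lt h1, ZMod.val_natCast_of_lt h2] at h3
  exact Nat.eq_of_mul_eq_mul_left hp h3

/-- the density of the classes is at least `2 ^ (- r) / p` -/
theorem one_dens (l : ι) (p : ℕ) (hp : 2 ≤ p) :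
    1 / 2 ^ Fintype.card ι * (1 / (p : ℝ)) * ((p ^ 2 : ℕ) : ℝ) ^ Fintype.card ι ≤
      ((one_Om l p).ncard : ℝ) := by
  classical
  have : NeZero (p ^ 2) := ⟨by positivity⟩
  have hp0 : (0 : ℝ) < p := by exact_mod_cast (by omega : 0 < p)
  have hp2 : (2 : ℝ) ≤ p := by exact_mod_cast hp
  set S : ι → Finset (ZMod (p ^ 2)) := fun i => if i = l then
    Finset.univ.filter (fun a : ZMod (p ^ 2) => p ∣ a.val ∧ a.val ≠ 0) else
    Finset.univ.filter (fun a : ZMod (p ^ 2) => ¬ p ∣ a.val) with hS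
  have e : one_Om l p = ↑(Fintype.piFinset S) := by
    ext ρ
    simp only [one_Om, Set.mem_ofPred_eq, Finset.mem_coe, Fintype.mem_piFinset, hS]
    constructor
    · rintro ⟨h1, h2, h3⟩ i
      by_cases hi : i = l
      · subst hi
        rw [if_pos rfl]
        exact Finset.mem_filter.mpr ⟨Finset.mem_univ _, h1, h2⟩
      · simp [hi, h3 i hi]
    · intro h
      have hl := h l
      simp only [if_pos, Finset.mem_filter, Finset.mem_univ, true_and] at hl
      refine ⟨hl.1, hl.2, fun i hi => ?_⟩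
      have := h i
      rw [if_neg hi] at this
      simpa using this
  have hc : (one_Om l p).ncard = ∏ i, (S i).card := by
    rw [e, Set.ncard_coe_finset, Fintype.card_piFinset]
  have h1 : ((p : ℝ) - 1) ≤ (S l).card := by
    have h2 : (Finset.univ.filter fun a : ZMod (p ^ 2) => p ∣ a.val) ⊆ insert 0 (S l) := by
      intro a ha
      rw [hS]
      simp only [Finset.mem_insert, if_pos, Finset.mem_filter, Finset.mem_univ, true_and] at ha ⊢
      by_cases h0 : a = 0
      · exact Or.inl h0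
      · exact Or.inr ⟨ha, by rwa [Ne, ZMod.val_eq_zero]⟩
    have h3 := (Finset.card_le_card h2).trans (Finset.card_insert_le _ _)
    rw [one_card_mult p (by omega)] at h3
    have : (p : ℝ) ≤ (S l).card + 1 := by exact_mod_cast h3
    linarith
  have h2 : ∀ i, i ≠ l → (S i).card + p = p ^ 2 := by
    intro i hi
    have h3 := Finset.card_filter_add_card_filter_not (s := (Finset.univ : Finset (ZMod (p ^ 2))))
      (fun a : ZMod (p ^ 2) => p ∣ a.val)
    rw [one_card_mult p (by omega), Finset.card_univ, ZMod.card] at h3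
    rw [hS]
    simp only [if_neg hi]
    omega
  have h3 : ∀ i, (if i = l then (1 : ℝ) / (2 * p) else 1 / 2) ≤ (S i).card / (p : ℝ) ^ 2 := by
    intro i
    by_cases hi : i = l
    · subst hi
      rw [if_pos rfl, div_le_div_iff₀ (by positivity) (by positivity)]
      nlinarith
    · rw [if_neg hi, div_le_div_iff₀ (by norm_num) (by positivity)]
      have h4 : ((S i).card : ℝ) + p = p ^ 2 := by exact_mod_cast h2 i hi
      nlinarith
  have h0 : (0 : ℝ) < ((p : ℝ) ^ 2) ^ Fintype.card ι := by positivity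
  rw [hc]
  push_cast
  rw [← le_div_iff₀ h0]
  have h4 : ((∏ i, ((S i).card : ℝ)) / ((p : ℝ) ^ 2) ^ Fintype.card ι) =
      ∏ i, ((S i).card : ℝ) / (p : ℝ) ^ 2 := by
    rw [Finset.prod_div_distrib, Finset.prod_const, Finset.card_univ]
  rw [h4]
  have h5 : ∏ i, (if i = l then (1 : ℝ) / (2 * p) else 1 / 2) ≤ ∏ i, ((S i).card : ℝ) / (p : ℝ) ^ 2 :=
    Finset.prod_le_prod (fun i _ => by split_ifs <;> positivity) fun i _ => h3 i
  refine le_trans (le_of_eq ?_) h5
  have h6 : ∀ i, (if i = l then (1 : ℝ) / (2 * p) else 1 / 2) =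
      (1 / 2) * (if i = l then (1 : ℝ) / p else 1) := by
    intro i
    split_ifs
    · field_simp
    · ring
  simp only [h6]
  rw [Finset.prod_mul_distrib, Finset.prod_const, Finset.card_univ, Finset.prod_ite_eq']
  simp

/-- one coordinate -/
theorem one_coord (hC : S_CRIT) (hD : S_CLO) (D : ℕ) (l : ι) :
    ProNull {c : ι → ℤ | ¬ ∃ p : ℕ, p.Prime ∧ D < p ∧ (p : ℤ) ∣ c l ∧ ¬ ((p : ℤ) ^ 2 ∣ c l) ∧
      ∀ j, j ≠ l → ¬ (p : ℤ) ∣ c j} := by
  have hns : ¬ Summable (fun p : ℕ => if p.Prime then 1 / 2 ^ Fintype.card ι * (1 / (p : ℝ))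
      else 0) := by
    intro hsum
    apply not_summable_one_div_on_primes
    have h1 := hsum.mul_left (2 ^ Fintype.card ι)
    refine h1.congr fun p => ?_
    by_cases h : p.Prime
    · simp [Set.indicator, h]
    · simp [Set.indicator, h]
  have h := hC ι (fun p => p ^ 2) (fun p hp => Nat.pos_of_ne_zero (by
      have := hp.pos
      positivity)) (fun p p' hp hp' hne =>
      Nat.Coprime.pow 2 2 ((Nat.coprime_primes hp hp').mpr hne))
    (fun p => one_Om l p) D (fun p => 1 / 2 ^ Fintype.card ι * (1 / (p : ℝ)))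
    (fun p => by positivity) hns (fun p hp _ => one_dens l p hp.two_le)
  refine (hD ι).1 _ _ (fun c hc => ?_) h
  revert hc
  simp only [Set.mem_ofPred_eq, not_exists, not_and]
  refine Iff.mp ?_
  refine forall_congr' fun p => forall_congr' fun hp => forall_congr' fun hD => ?_
  rw [one_mem l p hp.one_lt.le]
  simp only [not_and]

end

theorem t_ONE (hC : S_CRIT) (hD : S_CLO) : S_ONE := by
  intro ι _ _ D
  have key : ∀ s : Finset ι, ProNull {c : ι → ℤ | ¬ ∀ l ∈ s, ∃ p : ℕ, p.Prime ∧ D < p ∧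
      (p : ℤ) ∣ c l ∧ ¬ ((p : ℤ) ^ 2 ∣ c l) ∧ ∀ j, j ≠ l → ¬ (p : ℤ) ∣ c j} := by
    intro s
    induction s using Finset.induction_on with
    | empty =>
      intro M _ ε hε
      refine ⟨1, Nat.one_pos, Nat.coprime_one_left M, ?_⟩
      have : {c : ι → ℤ | ¬ ∀ l ∈ (∅ : Finset ι), ∃ p : ℕ, p.Prime ∧ D < p ∧
          (p : ℤ) ∣ c l ∧ ¬ ((p : ℤ) ^ 2 ∣ c l) ∧ ∀ j, j ≠ l → ¬ (p : ℤ) ∣ c j} = ∅ := by
        ext c
        simp
      rw [this, Set.image_empty, Set.ncard_empty]
      simp only [Nat.cast_zero]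
      positivity
    | insert l s hl ih =>
      refine (hD ι).1 _ _ ?_ ((hD ι).2.1 _ _ (one_coord hC hD D l) ih)
      intro c hc
      simp only [Set.mem_ofPred_eq, Finset.mem_insert, forall_eq_or_imp, Set.mem_union] at hc ⊢
      exact not_and_or.1 hc
  have h := key Finset.univ
  refine (hD ι).1 _ _ (fun c hc => ?_) h
  simpa using hc

end Pool.Agent.N24.RW
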