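import Mathlib

/-!
# Random orbits of groups of integral matrices: definitions

Owner helper24. `W : Walk ι` is a finite family of integral matrices of determinant one which
generates `SL_ι(ℤ/q)` for all `q` prime to some `q₀` (by strong approximation every finite family that
generates a Zariski dense subgroup, possibly of infinite index, is one). The random orbit of a vector
`v` is `v, s_{w 0} v, s_{w 1} s_{w 0} v, ...` for independent, uniformly chosen indices `w n`.
-/

set_option autoImplicit false

namespace Pool.Agent.N24.RW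

open MeasureTheory Filter Topology

/-- a finite family of matrices in `SL_ι(ℤ)` that generates `SL_ι(ℤ/q)` for all `q` prime to `q₀` -/
structure Walk (ι : Type) [Fintype ι] [DecidableEq ι] where
  m : ℕ
  s : Fin (m + 1) → Matrix.SpecialLinearGroup ι ℤ
  q₀ : ℕ
  pos : 0 < q₀
  gen : ∀ q : ℕ, 0 < q → q.Coprime q₀ → Subgroup.closure
    (Set.range fun j => Matrix.SpecialLinearGroup.map (Int.castRingHom (ZMod q)) (s j)) = ⊤

section

variable {ι : Type} [Fintype ι] [DecidableEq ι]

/-- the orbit of the vector `v` along the sequence `w` of indices -/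
def orb (W : Walk ι) (v : ι → ℤ) (w : ℕ → Fin (W.m + 1)) : ℕ → ι → ℤ
  | 0 => v
  | n + 1 => (W.s (w n)).1.mulVec (orb W v w n)

/-- the uniform product measure on the sequences of `m + 1` letters -/
noncomputable def words (m : ℕ) : Measure (ℕ → Fin (m + 1)) :=
  Measure.infinitePi fun _ : ℕ => (PMF.uniformOfFintype (Fin (m + 1))).toMeasure

/-- almost surely the random orbit of `v` is in `B` only at a set of times of density zero -/
def AlmostNever (W : Walk ι) (v : ι → ℤ) (B : Set (ι → ℤ)) : Prop :=
  ∀ᵐ w ∂(words W.m),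
    Tendsto (fun N : ℕ => (({n : ℕ | n < N ∧ orb W v w n ∈ B}.ncard : ℕ) : ℝ) / (N : ℝ)) atTop (𝓝 0)

/-- the closure of `B` in the product of the `ℤ_p^ι` over the `p` that do not divide `M` has Haar
measure zero, for all `M` -/
def ProNull (B : Set (ι → ℤ)) : Prop :=
  ∀ M : ℕ, 0 < M → ∀ ε : ℝ, 0 < ε → ∃ q : ℕ, 0 < q ∧ q.Coprime M ∧
    ((((fun (c : ι → ℤ) (i : ι) => (c i : ZMod q)) '' B).ncard : ℕ) : ℝ) ≤
      ε * (q : ℝ) ^ Fintype.card ι

end

end Pool.Agent.N24.RW
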