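import Pool.Agent.N24.RW.Stm

/-!
# Random orbits of groups of integral matrices: the main theorem (helper123)
-/

set_option autoImplicit false

namespace Pool.Agent.N24.RW

open MeasureTheory Filter Topology

namespace Mn

section

variable {ι : Type} [Fintype ι] [DecidableEq ι] {R : Type} [CommRing R]

/-- the orbit of a vector -/
def Ob (v : ι → R) : Type :=
  (Set.range fun h : Matrix.SpecialLinearGroup ι R => h.1.mulVec v : Set (ι → R))

lemma smul_mem (v : ι → R) (h : Matrix.SpecialLinearGroup ι R) (x : Ob v) :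
    h.1.mulVec x.1 ∈ Set.range fun h : Matrix.SpecialLinearGroup ι R => h.1.mulVec v := by
  obtain ⟨x, g, rfl⟩ := x
  exact ⟨h * g, by simp [Matrix.mulVec_mulVec]⟩

instance actOb (v : ι → R) : MulAction (Matrix.SpecialLinearGroup ι R) (Ob v) where
  smul h x := ⟨h.1.mulVec x.1, smul_mem v h x⟩
  one_smul x := Subtype.ext (by
    change (1 : Matrix.SpecialLinearGroup ι R).1.mulVec x.1 = x.1
    simp)
  mul_smul g h x := Subtype.ext (by
    change (g * h).1.mulVec x.1 = g.1.mulVec (h.1.mulVec x.1)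
    simp [Matrix.mulVec_mulVec])

lemma smul_val (v : ι → R) (h : Matrix.SpecialLinearGroup ι R) (x : Ob v) :
    (h • x).1 = h.1.mulVec x.1 := rfl

instance transOb (v : ι → R) : MulAction.IsPretransitive (Matrix.SpecialLinearGroup ι R) (Ob v) where
  exists_smul_eq x y := by
    obtain ⟨x, g, rfl⟩ := x
    obtain ⟨y, h, rfl⟩ := y
    refine ⟨h * g⁻¹, Subtype.ext ?_⟩
    change (h * g⁻¹).1.mulVec (g.1.mulVec v) = h.1.mulVec v
    rw [Matrix.mulVec_mulVec, ← Matrix.SpecialLinearGroup.coe_mul, inv_mul_cancel_right]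

/-- the base point -/
def base (v : ι → R) : Ob v := ⟨v, 1, by simp⟩

lemma base_val (v : ι → R) : (base v).1 = v := rfl

/-- the walk -/
def wk {m : ℕ} (v : ι → R) (s : Fin (m + 1) → Matrix.SpecialLinearGroup ι R)
    (w : ℕ → Fin (m + 1)) : ℕ → Ob v
  | 0 => base v
  | n + 1 => s (w n) • wk v s w n

end

variable {ι : Type} [Fintype ι] [DecidableEq ι]

/-- the vector modulo `q` -/
def red (q : ℕ) (c : ι → ℤ) (i : ι) : ZMod q := (c i : ZMod q)

lemma wk_val (W : Walk ι) (v : ι → ℤ) (q : ℕ) (w : ℕ → Fin (W.m + 1)) (n : ℕ) :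
    (wk (red q v) (fun j => Matrix.SpecialLinearGroup.map (Int.castRingHom (ZMod q)) (W.s j)) w n).1 =
      red q (orb W v w n) := by
  induction n with
  | zero => rfl
  | succ n ih =>
    rw [wk, smul_val, ih]
    funext i
    have h1 := RingHom.map_mulVec (Int.castRingHom (ZMod q)) (W.s (w n)).1 (orb W v w n) i
    exact h1.symm

/-- one modulus -/
lemma step (hO : S_ORB) (hE : S_ERG) (hcard : 2 ≤ Fintype.card ι) (W : Walk ι) (v : ι → ℤ)
    (i0 : ι) (B : Set (ι → ℤ)) (q : ℕ) (hq : 0 < q)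
    (hqc : q.Coprime (2 * W.q₀ * (v i0).natAbs)) (ε : ℝ) (hε : 0 ≤ ε)
    (hB : ((((fun (c : ι → ℤ) (i : ι) => (c i : ZMod q)) '' B).ncard : ℕ) : ℝ) ≤
      ε * (q : ℝ) ^ Fintype.card ι) :
    ∀ᵐ w ∂(words W.m), ∀ δ : ℝ, 0 < δ → ∀ᶠ N : ℕ in atTop,
      (({n : ℕ | n < N ∧ orb W v w n ∈ B}.ncard : ℕ) : ℝ) / (N : ℝ) ≤ 2 * ε + δ := by
  have : NeZero q := ⟨hq.ne'⟩
  have hc1 : q.Coprime (2 * W.q₀) := Nat.Coprime.coprime_mul_right_right hqc
  have hc2 : q.Coprime (v i0).natAbs := Nat.Coprime.coprime_mul_left_right hqc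
  have hodd : Odd q := by
    have h1 : q.Coprime 2 := Nat.Coprime.coprime_mul_right_right hc1
    exact Nat.coprime_two_right.1 h1
  have hq0 : q.Coprime W.q₀ := Nat.Coprime.coprime_mul_left_right hc1
  -- the vector is unimodular
  have hu : IsUnit (red q v i0) := by
    unfold red
    rw [ZMod.coe_int_isUnit_iff_isCoprime, Int.isCoprime_iff_gcd_eq_one]
    exact hc2
  have hspan : Ideal.span (Set.range (red q v)) = ⊤ :=
    Ideal.eq_top_of_isUnit_mem _ (Ideal.subset_span ⟨i0, rfl⟩) hu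
  have hX := hO ι hcard q hq hodd (red q v) hspan
  have : Finite (Ob (red q v)) := by
    unfold Ob
    infer_instance
  have hcardX : (Nat.card (Ob (red q v)) : ℝ) = ((Set.range fun h :
      Matrix.SpecialLinearGroup ι (ZMod q) => h.1.mulVec (red q v)).ncard : ℝ) := rfl
  obtain ⟨R, hR⟩ : ∃ R : Set (Ob (red q v)), R = {x | x.1 ∈
    (fun (c : ι → ℤ) (i : ι) => (c i : ZMod q)) '' B} := ⟨_, rfl⟩
  have hRcard : (R.ncard : ℝ) ≤ ε * (q : ℝ) ^ Fintype.card ι := by
    refine le_trans ?_ hB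
    have h1 : R.ncard ≤ ((fun (c : ι → ℤ) (i : ι) => (c i : ZMod q)) '' B).ncard := by
      refine Set.ncard_le_ncard_of_injOn (fun x => x.1) ?_ ?_ (Set.toFinite _)
      · intro x hx
        rw [hR] at hx
        exact hx
      · intro x _ y _ hxy
        exact Subtype.ext hxy
    exact_mod_cast h1
  have hqpos : (0 : ℝ) < (q : ℝ) ^ Fintype.card ι := by
    have : (0 : ℝ) < q := by exact_mod_cast hq
    positivity
  have hlim : (R.ncard : ℝ) / (Nat.card (Ob (red q v)) : ℝ) ≤ 2 * ε := by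
    rw [hcardX]
    rw [div_le_iff₀ (by linarith)]
    calc (R.ncard : ℝ) ≤ ε * (q : ℝ) ^ Fintype.card ι := hRcard
      _ ≤ ε * _ := mul_le_mul_of_nonneg_left hX hε
      _ = _ := by ring
  have h1 := hE (Matrix.SpecialLinearGroup ι (ZMod q)) (Ob (red q v)) W.m
    (fun j => Matrix.SpecialLinearGroup.map (Int.castRingHom (ZMod q)) (W.s j))
    (W.gen q hq hq0) (base (red q v)) R
  filter_upwards [h1] with w hw δ hδ
  have h2 := hw (wk (red q v) (fun j => Matrix.SpecialLinearGroup.map (Int.castRingHom (ZMod q))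
    (W.s j)) w) rfl (fun n => rfl)
  have h3 := (tendsto_order.1 h2).2 (2 * ε + δ) (by linarith)
  filter_upwards [h3] with N hN
  refine le_trans ?_ hN.le
  refine div_le_div_of_nonneg_right ?_ (Nat.cast_nonneg N)
  have h4 : {n : ℕ | n < N ∧ orb W v w n ∈ B}.ncard ≤ {n : ℕ | n < N ∧
      wk (red q v) (fun j => Matrix.SpecialLinearGroup.map (Int.castRingHom (ZMod q))
        (W.s j)) w n ∈ R}.ncard := by
    refine Set.ncard_le_ncard ?_ ((Set.finite_Iio N).subset fun n hn => hn.1)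
    intro n hn
    refine ⟨hn.1, ?_⟩
    rw [hR]
    change (wk (red q v) (fun j => Matrix.SpecialLinearGroup.map (Int.castRingHom (ZMod q))
        (W.s j)) w n).1 ∈ (fun (c : ι → ℤ) (i : ι) => (c i : ZMod q)) '' B
    rw [wk_val]
    exact ⟨_, hn.2, rfl⟩
  exact_mod_cast h4

end Mn

/-- **main theorem** -/
theorem t_MAIN (hO : S_ORB) (hE : S_ERG) : S_MAIN := by
  intro ι _ _ hcard W v hv B hB
  obtain ⟨i0, hi0⟩ : ∃ i0, v i0 ≠ 0 := by
    by_contra h
    push Not at h
    exact hv (funext h)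
  have hM : 0 < 2 * W.q₀ * (v i0).natAbs := by
    have := W.pos
    have := Int.natAbs_pos.2 hi0
    positivity
  have h1 : ∀ k : ℕ, ∀ᵐ w ∂(words W.m), ∀ δ : ℝ, 0 < δ → ∀ᶠ N : ℕ in atTop,
      (({n : ℕ | n < N ∧ orb W v w n ∈ B}.ncard : ℕ) : ℝ) / (N : ℝ) ≤ 2 * (1 / ((k : ℝ) + 1)) + δ := by
    intro k
    obtain ⟨q, hq, hqc, hqB⟩ := hB _ hM (1 / ((k : ℝ) + 1)) (by positivity)
    exact Mn.step hO hE hcard W v i0 B q hq hqc _ (by positivity) hqB
  have h2 := ae_all_iff.2 h1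
  unfold AlmostNever
  filter_upwards [h2] with w hw
  rw [tendsto_order]
  constructor
  · intro a ha
    refine Eventually.of_forall fun N => lt_of_lt_of_le ha ?_
    positivity
  · intro a ha
    obtain ⟨k, hk⟩ := exists_nat_gt (4 / a)
    have h3 := hw k (a / 4) (by linarith)
    filter_upwards [h3] with N hN
    have h4 : 1 / ((k : ℝ) + 1) ≤ a / 4 := by
      rw [div_le_div_iff₀ (by positivity) (by norm_num)]
      rw [div_lt_iff₀ ha] at hk
      nlinarith
    linarith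

end Pool.Agent.N24.RW
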