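import Pool.Agent.N24.RW.Orb
import Pool.Agent.N24.RW.Erg
import Pool.Agent.N24.RW.Crit
import Pool.Agent.N24.RW.Clo
import Pool.Agent.N24.RW.One
import Pool.Agent.N24.RW.Main

/-!
# Random orbits of groups of integral matrices: the engine

* `crit`: a local criterion (residues modulo `Q p` in a set `Omega p`, infinitely often with divergent
  sum of the densities) shows that a set of integral vectors is pronull (helper300).
* `clo`: closure properties of pronull sets (helper765).
* `one`: outside a pronull set every coordinate has its own prime divisor (helper340).
* `main`: pronull sets are almost never visited by the random orbits of a finite set of matrices in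
  `SL_r(Z)` which generates `SL_r(Z/q)` for all `q` prime to some `q0`
  (helper123, with helper543: orbits of `SL_r(Z/q)`, and helper195: the strong law for random walks on
  finite groups).
-/

set_option autoImplicit false

namespace Pool.Agent.N24.RW

theorem crit : S_CRIT := t_CRIT

theorem clo : S_CLO := t_CLO

theorem one : S_ONE := t_ONE t_CRIT t_CLO

theorem main : S_MAIN := t_MAIN t_ORB t_ERG

end Pool.Agent.N24.RW
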