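import Pool.Agent.N24.RW.Defs

/-!
# Random orbits of groups of integral matrices: statements
-/

set_option autoImplicit false

namespace Pool.Agent.N24.RW

open MeasureTheory Filter Topology

/-- **A.** the orbit of a primitive vector modulo an odd `q` contains at least half of all vectors -/
def S_ORB : Prop := ∀ (ι : Type) [Fintype ι] [DecidableEq ι], 2 ≤ Fintype.card ι →
  ∀ q : ℕ, 0 < q → Odd q → ∀ v : ι → ZMod q, Ideal.span (Set.range v) = ⊤ →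
    (q : ℝ) ^ Fintype.card ι ≤
      2 * ((Set.range fun h : Matrix.SpecialLinearGroup ι (ZMod q) => h.1.mulVec v).ncard : ℝ)

/-- **B.** the ergodic theorem for random walks on finite groups acting transitively: `x n` is the walk
`x 0 = x₀`, `x (n + 1) = s (w n) • x n` -/
def S_ERG : Prop := ∀ (H X : Type) [Group H] [Finite H] [Finite X] [MulAction H X]
  [MulAction.IsPretransitive H X] (m : ℕ) (s : Fin (m + 1) → H),
  Subgroup.closure (Set.range s) = ⊤ → ∀ (x₀ : X) (R : Set X),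
    ∀ᵐ w ∂(words m), ∀ x : ℕ → X, x 0 = x₀ → (∀ n, x (n + 1) = s (w n) • x n) →
      Tendsto (fun N : ℕ => (({n : ℕ | n < N ∧ x n ∈ R}.ncard : ℕ) : ℝ) / (N : ℝ)) atTop
        (𝓝 ((R.ncard : ℝ) / (Nat.card X : ℝ)))

/-- **C.** the local criterion: the vectors which for no prime `p > T₀` are in `Ω p` modulo `Q p` -/
def S_CRIT : Prop := ∀ (ι : Type) [Fintype ι] (Q : ℕ → ℕ),
  (∀ p, p.Prime → 1 ≤ Q p) → (∀ p p', p.Prime → p'.Prime → p ≠ p' → (Q p).Coprime (Q p')) →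
  ∀ (Ω : ∀ p : ℕ, Set (ι → ZMod (Q p))) (T₀ : ℕ) (w : ℕ → ℝ), (∀ p, 0 ≤ w p) →
    ¬ Summable (fun p : ℕ => if p.Prime then w p else 0) →
    (∀ p, p.Prime → T₀ < p → w p * (Q p : ℝ) ^ Fintype.card ι ≤ ((Ω p).ncard : ℝ)) →
    ProNull {c : ι → ℤ | ∀ p, p.Prime → T₀ < p → (fun i => (c i : ZMod (Q p))) ∉ Ω p}

/-- **D.** closure properties -/
def S_CLO : Prop := ∀ (ι : Type) [Fintype ι],
  (∀ A B : Set (ι → ℤ), A ⊆ B → ProNull B → ProNull A) ∧
  (∀ A B : Set (ι → ℤ), ProNull A → ProNull B → ProNull (A ∪ B)) ∧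
  (Nonempty ι → ∀ A : Set (ι → ℤ), A.Finite → ProNull A) ∧
  (∀ R : MvPolynomial ι ℤ, R ≠ 0 → ProNull {c : ι → ℤ | MvPolynomial.eval c R = 0}) ∧
  (∀ (κ : Type) [Fintype κ] (f : ι → κ), Function.Injective f → ∀ B : Set (ι → ℤ), ProNull B →
    ProNull {c : κ → ℤ | (fun i => c (f i)) ∈ B})

/-- **E.** for every `D`: outside a pronull set every coordinate has a prime `p > D` which divides it
exactly once and divides no other coordinate -/
def S_ONE : Prop := ∀ (ι : Type) [Fintype ι] [DecidableEq ι] (D : ℕ),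
  ProNull {c : ι → ℤ | ¬ ∀ l : ι, ∃ p : ℕ, p.Prime ∧ D < p ∧ (p : ℤ) ∣ c l ∧ ¬ ((p : ℤ) ^ 2 ∣ c l) ∧
    ∀ j, j ≠ l → ¬ (p : ℤ) ∣ c j}

/-- **main theorem** -/
def S_MAIN : Prop := ∀ (ι : Type) [Fintype ι] [DecidableEq ι], 2 ≤ Fintype.card ι →
  ∀ (W : Walk ι) (v : ι → ℤ), v ≠ 0 → ∀ B : Set (ι → ℤ), ProNull B → AlmostNever W v B

end Pool.Agent.N24.RW
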